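import Pool.Agent.H362R2.QT.Stubs
import Pool.Agent.H361R2.InfIface

/-!
# Project NP (helper520): exact prime patterns along narrow progressions. Statements of the tasks.

`S_FAMB` + the moment theorems of `Pool.Agent.H362R2.QT` give `S_BLK`; `S_BLK` + `S_NAR` (relative
Szemeredi theorem, helper727) give `S_BM`; `S_BM` gives `S_INF`; `S_INF` + `S_RAM` give the final
theorem.
-/

set_option autoImplicit false

open Finset Filter Topology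
open scoped ContDiff

namespace Pool.Agent.Y520.NP

open Pool.Agent.H378R2 Pool.Agent.H387R2 Pool.Agent.H387R2.MB Pool.Agent.H362R2.QT
open Pool.Agent.H361R2.Inf (FMeas)

/-- (NAR) dense sets of `n ∈ (x, 3x]` for which all `n + h`, `h ∈ H`, are free of prime factors
`≤ x ^ δ` contain `k`-term progressions with a difference `≤ (log x) ^ C` -/
def S_NAR : Prop := ∀ (H : Finset ℕ) (k : ℕ) (δ ε : ℝ), 0 < δ → 0 < ε → ∃ (C : ℕ) (x₀ : ℝ),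
  ∀ x : ℝ, x₀ ≤ x → ∀ A : Finset ℕ, (∀ n ∈ A, x < n ∧ (n : ℝ) ≤ 3 * x) →
    (∀ n ∈ A, ∀ h ∈ H, ∀ p : ℕ, p.Prime → p ∣ n + h → x ^ δ < p) →
    ε * x / Real.log x ^ H.card ≤ A.card →
    ∃ n d : ℕ, 1 ≤ d ∧ (d : ℝ) ≤ Real.log x ^ C ∧ ∀ j < k, n + j * d ∈ A

/-- `T` contains narrow progressions of every length, arbitrarily far out -/
def NAP (T : Set ℕ) : Prop := ∀ k : ℕ, ∃ C : ℕ, ∀ n₀ : ℕ, ∃ n d : ℕ, n₀ ≤ n ∧ 1 ≤ d ∧
  (d : ℝ) ≤ Real.log n ^ C ∧ ∀ j < k, n + j * d ∈ T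

/-- (FAMB) the family of test functions for blocks of coordinates: block `s` consists of the
coordinates `i` with `off s ≤ i < off (s + 1)`; the boundaries `off` do not depend on the number
`J` of blocks -/
def S_FAMB : Prop := ∀ η M0 : ℝ, 0 < η → η < 1 → ∃ off : ℕ → ℕ, StrictMono off ∧ off 0 = 0 ∧
  ∀ J K0 : ℕ, off J = K0 + 1 →
  ∃ (B : ℕ) (f : Fin B → ℝ → ℝ) (c : Fin B → ℝ) (A : Finset (Fin (K0 + 1) → Fin B)) (S : ℝ)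
    (x : ℕ → ℝ),
    (∀ l, ContDiff ℝ ∞ (f l)) ∧ (∀ l, HasCompactSupport (f l)) ∧ (∀ l y, c l < y → f l y = 0) ∧
    (∀ l, 0 ≤ c l ∧ c l ≤ 1 / 2) ∧ (∀ a ∈ A, ∑ j, c (a j) ≤ 1) ∧ (∀ l y, |f l y| ≤ 1) ∧
    0 < II f A ∧ II f A ≤ S ∧
    ∀ s < J, M0 ≤ x s ∧ ∀ i : Fin (K0 + 1), off s ≤ (i : ℕ) → (i : ℕ) < off (s + 1) →
      (1 - η) * x s * S ≤ ((off (s + 1) : ℝ) - off s) * JJ f A i ∧
      ∀ j0 : Fin K0, off s ≤ (i.succAbove j0 : ℕ) → (i.succAbove j0 : ℕ) < off (s + 1) →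
        ((off (s + 1) : ℝ) - off s) ^ 2 * JJ2 f A i j0 ≤ x s ^ 2 * S

open Classical in
/-- (BLK) sieve weights for every number `J` of blocks: total mass at most `2`, every block contains
a prime with weight at least `1/10`, small weight on the `n` with a small prime factor of some
`n + t i`, and the weights are bounded on the other `n` -/
def S_BLK : Prop := ∃ off : ℕ → ℕ, StrictMono off ∧ off 0 = 0 ∧ ∀ J : ℕ, ∃ z : ℕ,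
  ∀ (W a0 : ℕ) (t : ℕ → ℕ), 0 < W → Squarefree W → (∀ p : ℕ, p.Prime → p ≤ z → p ∣ W) →
    (∀ i < off J, ∀ j < off J, i ≠ j → ∀ p : ℕ, p.Prime → (p : ℤ) ∣ (t i : ℤ) - t j → p ∣ W) →
    (∀ i < off J, Nat.Coprime (a0 + t i) W) →
    ∃ mu : ℝ → ℕ → ℝ,
      (∀ᶠ X : ℝ in atTop, (∀ n, 0 ≤ mu X n) ∧
        (∀ n, mu X n ≠ 0 → X < n ∧ (n : ℝ) ≤ 3 * X ∧ n ≡ a0 [MOD W]) ∧
        ∑ n ∈ Icc 1 ⌊3 * X⌋₊, mu X n ≤ 2 ∧
        ∀ s < J, (1 / 10 : ℝ) ≤ ∑ n ∈ (Icc 1 ⌊3 * X⌋₊).filter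
          (fun n => ∃ i ∈ Ico (off s) (off (s + 1)), (n + t i).Prime), mu X n) ∧
      ∀ β : ℝ, 0 < β → ∃ δ D : ℝ, 0 < δ ∧ 0 < D ∧ ∀ᶠ X : ℝ in atTop,
        ∑ n ∈ (Icc 1 ⌊3 * X⌋₊).filter
          (fun n => ¬ ∀ i < off J, ∀ p : ℕ, p.Prime → p ∣ n + t i → X ^ δ < p), mu X n ≤ β ∧
        ∀ n : ℕ, (∀ i < off J, ∀ p : ℕ, p.Prime → p ∣ n + t i → X ^ δ < p) →
          mu X n ≤ D * Real.log X ^ off J / X

/-- (BM) finitely additive measures for every number `J` of blocks; sets of positive measure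
contain narrow progressions -/
def S_BM : Prop := ∃ off : ℕ → ℕ, StrictMono off ∧ off 0 = 0 ∧ ∀ J : ℕ, ∃ z : ℕ,
  ∀ (W a0 : ℕ) (t : ℕ → ℕ), 0 < W → Squarefree W → (∀ p : ℕ, p.Prime → p ≤ z → p ∣ W) →
    (∀ i < off J, ∀ j < off J, i ≠ j → ∀ p : ℕ, p.Prime → (p : ℤ) ∣ (t i : ℤ) - t j → p ∣ W) →
    (∀ i < off J, Nat.Coprime (a0 + t i) W) →
    ∃ m : Set ℕ → ℝ, FMeas m ∧ m Set.univ ≤ 2 ∧
      (∀ s < J, (1 / 10 : ℝ) ≤ m {n | ∃ i ∈ Ico (off s) (off (s + 1)), (n + t i).Prime}) ∧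
      ∀ S : Set ℕ, 0 < m S → NAP {n | n ∈ S ∧ n ≡ a0 [MOD W]}

/-- (INF) every infinite set of integers contains an infinite exact prime pattern which occurs along
narrow progressions, also with a finite colouring of the primes -/
def S_INF : Prop := ∀ (r : ℕ) (χ : ℕ → Fin (r + 1)) (F : Set ℤ), F.Infinite →
  ∃ G ⊆ F, G.Infinite ∧ ∃ γ : ℤ → Fin (r + 1), ∀ R : ℕ,
    NAP {n : ℕ | ∀ y : ℤ, |y| ≤ R → ((Nat.Prime ((n : ℤ) + y).toNat ↔ y ∈ G) ∧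
      (y ∈ G → χ ((n : ℤ) + y).toNat = γ y))}

/-- (RAM) the Ramsey theorem for closed families of infinite sets of integers -/
def S_RAM : Prop := ∀ Φ : ℕ → Set ℤ → Prop,
  (∀ (R : ℕ) (B B' : Set ℤ), (∀ y : ℤ, |y| ≤ R → (y ∈ B ↔ y ∈ B')) → Φ R B → Φ R B') →
  (∀ F : Set ℤ, F.Infinite → ∃ G ⊆ F, G.Infinite ∧ ∀ R, Φ R G) →
  ∀ F : Set ℤ, F.Infinite → ∃ G ⊆ F, G.Infinite ∧ ∀ I ⊆ G, ∀ R, Φ R I

end Pool.Agent.Y520.NP
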