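import Pool.Agent.Y520.NP.Stm
import Pool.Agent.H38R3.Ellentuck

/-!
The Ramsey theorem for closed families of sets of integers (from the theorem of Ellentuck).
-/

set_option autoImplicit false

namespace Pool.Agent.Y520.NP

open Pool.Agent.H38R3.Ell

theorem ram_bdd {F : ℕ → ℤ} (hF : Function.Injective F) (R : ℕ) :
    ∃ N : ℕ, ∀ a, |F a| ≤ (R : ℤ) → a < N := by
  have h1 : (F ⁻¹' (Set.Icc (-(R : ℤ)) R)).Finite := (Set.finite_Icc _ _).preimage hF.injOn
  obtain ⟨M, hM⟩ := h1.bddAbove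
  exact ⟨M + 1, fun a ha => Nat.lt_succ_of_le (hM (abs_le.mp ha))⟩

theorem ram_eo {Φ : ℕ → Set ℤ → Prop}
    (hΦ : ∀ (R : ℕ) (B B' : Set ℤ), (∀ y : ℤ, |y| ≤ R → (y ∈ B ↔ y ∈ B')) → Φ R B → Φ R B')
    {F : ℕ → ℤ} (hF : Function.Injective F) : EO {z : Set ℕ | ¬ ∀ R, Φ R (F '' z)} := by
  intro z hz hzi
  simp only [Set.mem_ofPred_eq, not_forall] at hz
  obtain ⟨R, hR⟩ := hz
  obtain ⟨N, hN⟩ := ram_bdd hF R
  obtain ⟨u, hu1, hu2, hu3, -⟩ := exists_init hzi N 0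
  refine ⟨u, hu1, fun w hw hE => ?_⟩
  refine hR (hΦ R _ _ (fun y hy => ?_) (hE R))
  constructor
  · rintro ⟨a, ha, rfl⟩
    refine ⟨a, ?_, rfl⟩
    rcases hw.2.2 a ha with h | h
    · exact hu3 a h
    · exact h.1
  · rintro ⟨a, ha, rfl⟩
    exact ⟨a, hw.2.1 a (hu2 a ha (hN a hy)), rfl⟩

theorem ram : S_RAM := by
  intro Φ hΦ hG F₀ hF₀
  let e : ℕ → ℤ := Equiv.intEquivNat.symm
  have he : Function.Injective e := Equiv.intEquivNat.symm.injective
  have hes : Function.Surjective e := Equiv.intEquivNat.symm.surjective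
  have hY : (e ⁻¹' F₀).Infinite := by
    intro hfin
    apply hF₀
    have : e '' (e ⁻¹' F₀) = F₀ := Set.image_preimage_eq _ hes
    rw [← this]
    exact hfin.image e
  obtain ⟨Y', h1, h2, h3⟩ := (ram_eo hΦ he).cr ∅ _ hY
  have h4 : ∀ z ∈ Nb ∅ Y', ∀ R, Φ R (e '' z) := by
    rcases h3 with h3 | h3
    · exfalso
      obtain ⟨G, hG1, hG2, hG3⟩ := hG (e '' Y') (h2.image he.injOn)
      have h5 : e '' (e ⁻¹' G) = G := Set.image_preimage_eq _ hes
      have h6 : (e ⁻¹' G).Infinite := by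
        intro hfin
        apply hG2
        rw [← h5]
        exact hfin.image e
      have h7 : e ⁻¹' G ⊆ Y' := by
        intro a ha
        obtain ⟨b, hb, hab⟩ := hG1 ha
        rwa [he hab] at hb
      refine h3 (e ⁻¹' G) ⟨h6, by simp, fun n hn => Or.inr ⟨h7 hn, by simp⟩⟩ ?_
      rw [h5]
      exact hG3
    · intro z hz
      by_contra h
      exact h3 z hz h
  refine ⟨e '' Y', ?_, h2.image he.injOn, fun I hI R => ?_⟩
  · rintro _ ⟨a, ha, rfl⟩
    exact h1 ha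
  obtain ⟨N, hN⟩ := ram_bdd he R
  have hIe : e '' (e ⁻¹' I) = I := Set.image_preimage_eq _ hes
  have hU : e ⁻¹' I ⊆ Y' := by
    intro a ha
    obtain ⟨b, hb, hab⟩ := hI ha
    rwa [he hab] at hb
  have h5 : (Y' \ Set.Iio N).Infinite := h2.sdiff (Set.finite_Iio N)
  have h6 := h4 (e ⁻¹' I ∪ (Y' \ Set.Iio N)) ⟨h5.mono Set.subset_union_right, by simp,
    fun n hn => by
      right
      refine ⟨?_, by simp⟩
      rcases hn with h | h
      · exact hU h
      · exact h.1⟩ R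
  refine hΦ R _ _ (fun y hy => ?_) h6
  constructor
  · rintro ⟨a, ha, rfl⟩
    rcases ha with ha | ha
    · exact ha
    · exact absurd (hN a hy) ha.2
  · intro hyI
    obtain ⟨a, rfl⟩ := hes y
    exact ⟨a, Or.inl hyI, rfl⟩

end Pool.Agent.Y520.NP
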