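import Pool.Agent.Y520.NP.BM

/-!
# Project NP (helper520): general blocks, limit along an ultrafilter
-/

set_option autoImplicit false

open Finset Filter Topology

namespace Pool.Agent.Y520.NP

open Pool.Agent.H361R2.Inf (FMeas)

/-- the standing conditions on the modulus, the class and the shifts -/
def Std (K z W a0 : ℕ) (t : ℕ → ℕ) : Prop := 0 < W ∧ Squarefree W ∧ (∀ p : ℕ, p.Prime → p ≤ z → p ∣ W) ∧
    (∀ i < K, ∀ j < K, i ≠ j → ∀ p : ℕ, p.Prime → (p : ℤ) ∣ (t i : ℤ) - t j → p ∣ W) ∧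
    (∀ i < K, Nat.Coprime (a0 + t i) W)

open Classical in
/-- (BLK) sieve weights for the blocks `blk s`, `s < J`, of the coordinates `i < K`: total mass at most
`tot`, every block contains a prime with weight at least `c`, small weight on the `n` with a small prime
factor of some `n + t i`, and the weights are bounded on the other `n` -/
def BLKg (K J : ℕ) (blk : ℕ → Finset ℕ) (tot c : ℝ) : Prop := ∃ z : ℕ,
  ∀ (W a0 : ℕ) (t : ℕ → ℕ), Std K z W a0 t →
    ∃ mu : ℝ → ℕ → ℝ,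
      (∀ᶠ X : ℝ in atTop, (∀ n, 0 ≤ mu X n) ∧
        (∀ n, mu X n ≠ 0 → X < n ∧ (n : ℝ) ≤ 3 * X ∧ n ≡ a0 [MOD W]) ∧
        ∑ n ∈ Icc 1 ⌊3 * X⌋₊, mu X n ≤ tot ∧
        ∀ s < J, c ≤ ∑ n ∈ (Icc 1 ⌊3 * X⌋₊).filter
          (fun n => ∃ i ∈ blk s, (n + t i).Prime), mu X n) ∧
      ∀ β : ℝ, 0 < β → ∃ δ D : ℝ, 0 < δ ∧ 0 < D ∧ ∀ᶠ X : ℝ in atTop,
        ∑ n ∈ (Icc 1 ⌊3 * X⌋₊).filter
          (fun n => ¬ ∀ i < K, ∀ p : ℕ, p.Prime → p ∣ n + t i → X ^ δ < p), mu X n ≤ β ∧
        ∀ n : ℕ, (∀ i < K, ∀ p : ℕ, p.Prime → p ∣ n + t i → X ^ δ < p) →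
          mu X n ≤ D * Real.log X ^ K / X

/-- (BM) finitely additive measures; sets of positive measure contain narrow progressions -/
def BMg (K J : ℕ) (blk : ℕ → Finset ℕ) (tot c : ℝ) : Prop := ∃ z : ℕ,
  ∀ (W a0 : ℕ) (t : ℕ → ℕ), Std K z W a0 t →
    ∃ m : Set ℕ → ℝ, FMeas m ∧ m Set.univ ≤ tot ∧
      (∀ s < J, c ≤ m {n | ∃ i ∈ blk s, (n + t i).Prime}) ∧
      ∀ S : Set ℕ, 0 < m S → NAP {n | n ∈ S ∧ n ≡ a0 [MOD W]}

/-- BM -/
theorem bmg {K J : ℕ} {blk : ℕ → Finset ℕ} {tot c : ℝ} (hB : BLKg K J blk tot c) (hN : S_NAR) :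
    BMg K J blk tot c := by
  classical
  obtain ⟨z, hz⟩ := hB
  refine ⟨z, fun W a0 t hstd => ?_⟩
  obtain ⟨mu, hev, hβ⟩ := hz W a0 t hstd
  obtain ⟨hW, hsq, hWz, hdiff, hcop⟩ := hstd
  have hinj := shifts_inj hW hdiff
  let F : Ultrafilter ℝ := Ultrafilter.of atTop
  have hF : (F : Filter ℝ) ≤ atTop := Ultrafilter.of_le _
  have hevF := hev.filter_mono hF
  have hnn : ∀ A : Set ℕ, ∀ᶠ x in (F : Filter ℝ), 0 ≤ wt mu A x := by
    intro A
    filter_upwards [hevF] with x hx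
    exact Finset.sum_nonneg fun n _ => hx.1 n
  have hle : ∀ A : Set ℕ, ∀ᶠ x in (F : Filter ℝ), wt mu A x ≤ tot := by
    intro A
    filter_upwards [hevF] with x hx
    unfold wt
    exact (Finset.sum_le_sum_of_subset_of_nonneg (Finset.filter_subset _ _)
      fun n _ _ => hx.1 n).trans hx.2.2.1
  have hlim : ∀ A : Set ℕ, ∃ y : ℝ, y ∈ Set.Icc (0:ℝ) tot ∧
      Tendsto (wt mu A) (F : Filter ℝ) (𝓝 y) := by
    intro A
    have h1 : (F.map (wt mu A) : Filter ℝ) ≤ 𝓟 (Set.Icc (0:ℝ) tot) := by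
      rw [Filter.le_principal_iff, Ultrafilter.mem_coe, Ultrafilter.mem_map]
      filter_upwards [hnn A, hle A] with x h1 h2
      exact ⟨h1, h2⟩
    obtain ⟨y, hy, hy2⟩ := isCompact_Icc.ultrafilter_le_nhds (F.map (wt mu A)) h1
    exact ⟨y, hy, hy2⟩
  choose m hm1 hm2 using hlim
  refine ⟨m, ⟨fun A => (hm1 A).1, fun A B hAB => ?_, fun A hA => ?_⟩, (hm1 _).2,
    fun s hs => ?_, fun S hS => ?_⟩
  · have h1 : Tendsto (wt mu (A ∪ B)) (F : Filter ℝ) (𝓝 (m A + m B)) := by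
      have h2 := (hm2 A).add (hm2 B)
      refine h2.congr fun x => ?_
      rw [wt_union mu A B hAB x]
    exact tendsto_nhds_unique (hm2 _) h1
  · have h1 : Tendsto (wt mu A) (F : Filter ℝ) (𝓝 0) := by
      apply tendsto_const_nhds.congr'
      obtain ⟨M, hM⟩ := hA.bddAbove
      filter_upwards [hevF, hF (eventually_ge_atTop (M : ℝ))] with x hx hxM
      symm
      unfold wt
      apply Finset.sum_eq_zero
      intro n hn
      by_contra hne
      have h2 := (hx.2.1 n hne).1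
      have h3 : n ≤ M := hM (Finset.mem_filter.1 hn).2
      have h4 : (n : ℝ) ≤ M := by exact_mod_cast h3
      linarith
    exact tendsto_nhds_unique (hm2 _) h1
  · refine ge_of_tendsto (hm2 _) ?_
    filter_upwards [hevF] with x hx
    unfold wt
    have h3 := hx.2.2.2 s hs
    refine h3.trans (le_of_eq (Finset.sum_congr ?_ fun _ _ => rfl))
    ext n
    simp only [Finset.mem_filter]
    exact Iff.rfl
  · intro k
    obtain ⟨δ, D, hδ, hD, hev2⟩ := hβ (m S / 4) (by linarith)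
    set H : Finset ℕ := (range (K)).image t with hH
    have hcard : H.card = K := by
      rw [hH, Finset.card_image_of_injOn hinj, card_range]
    obtain ⟨C, x₀, hC⟩ := hN H (k + 1) δ (m S / 4 / D) hδ (by positivity)
    refine ⟨C, fun n₀ => ?_⟩
    have hev2F := hev2.filter_mono hF
    have hgt : ∀ᶠ x in (F : Filter ℝ), m S / 2 < wt mu S x :=
      (hm2 S).eventually (lt_mem_nhds (by linarith))
    have he1 : ∀ᶠ x in (F : Filter ℝ), x₀ ≤ x := hF (eventually_ge_atTop x₀)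
    have he2 : ∀ᶠ x in (F : Filter ℝ), (n₀ : ℝ) ≤ x := hF (eventually_ge_atTop (n₀ : ℝ))
    have he3 : ∀ᶠ x in (F : Filter ℝ), (2 : ℝ) < x := hF (eventually_gt_atTop (2 : ℝ))
    obtain ⟨X, hX1, hX2, hX3, hX4, hX5, hX6⟩ :=
      (hevF.and (hev2F.and (hgt.and (he1.and (he2.and he3))))).exists
    obtain ⟨hmu0, hsupp, -, -⟩ := hX1
    obtain ⟨hnr, hbd⟩ := hX2
    have hlog : 0 < Real.log X := Real.log_pos (by linarith)
    have hlK : 0 < Real.log X ^ K := pow_pos hlog _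
    have hX0 : 0 < X := by linarith
    set Rgh : ℕ → Prop := fun n => ∀ i < K, ∀ p : ℕ, p.Prime → p ∣ n + t i → X ^ δ < p with hRgh
    set A : Finset ℕ := (Icc 1 ⌊3 * X⌋₊).filter (fun n => n ∈ S ∧ Rgh n ∧ mu X n ≠ 0) with hA
    -- the mass of `A`
    have hmass : m S / 4 ≤ ∑ n ∈ A, mu X n := by
      have h1 : wt mu S X ≤ ∑ n ∈ A, mu X n +
          ∑ n ∈ (Icc 1 ⌊3 * X⌋₊).filter (fun n => ¬ Rgh n), mu X n := by
        unfold wt
        have h2 : ∑ n ∈ A, mu X n = ∑ n ∈ (Icc 1 ⌊3 * X⌋₊), if n ∈ S ∧ Rgh n ∧ mu X n ≠ 0 then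
            mu X n else 0 := by
          rw [hA, Finset.sum_filter]
        rw [h2, Finset.sum_filter, Finset.sum_filter, ← Finset.sum_add_distrib]
        apply Finset.sum_le_sum
        intro n _
        have h0 := hmu0 n
        by_cases hnS : n ∈ S
        · by_cases hnR : Rgh n
          · by_cases hne : mu X n = 0
            · simp [hne]
            · simp [hnS, hnR, hne]
          · simp [hnS, hnR]
        · have h3 : ¬ (n ∈ S ∧ Rgh n ∧ mu X n ≠ 0) := fun h => hnS h.1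
          rw [if_neg hnS, if_neg h3, zero_add]
          split_ifs
          · exact le_rfl
          · exact h0
      have h3 : ∑ n ∈ (Icc 1 ⌊3 * X⌋₊).filter (fun n => ¬ Rgh n), mu X n ≤ m S / 4 := hnr
      linarith
    have hcardA : m S / 4 / D * X / Real.log X ^ H.card ≤ A.card := by
      rw [hcard]
      have h1 : ∑ n ∈ A, mu X n ≤ A.card * (D * Real.log X ^ K / X) := by
        calc ∑ n ∈ A, mu X n ≤ ∑ _n ∈ A, D * Real.log X ^ K / X := by
              apply Finset.sum_le_sum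
              intro n hn
              exact hbd n (Finset.mem_filter.1 hn).2.2.1
          _ = A.card * (D * Real.log X ^ K / X) := by
              rw [Finset.sum_const, nsmul_eq_mul]
      have h2 : m S / 4 ≤ A.card * (D * Real.log X ^ K / X) := hmass.trans h1
      rw [div_le_iff₀ hlK, div_mul_eq_mul_div, div_le_iff₀ hD]
      have h3 : m S / 4 * X ≤ A.card * (D * Real.log X ^ K / X) * X :=
        mul_le_mul_of_nonneg_right h2 hX0.le
      have h4 : A.card * (D * Real.log X ^ K / X) * X =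
          A.card * Real.log X ^ K * D := by
        field_simp
      linarith
    obtain ⟨n, d, hd1, hd2, hnd⟩ := hC X hX4 A (fun n hn => by
        have h1 := hsupp n (Finset.mem_filter.1 hn).2.2.2
        exact ⟨h1.1, h1.2.1⟩) (fun n hn h hh p hp hpd => by
        obtain ⟨i, hi, rfl⟩ := Finset.mem_image.1 hh
        exact (Finset.mem_filter.1 hn).2.2.1 i (Finset.mem_range.1 hi) p hp hpd) hcardA
    have hn0 : n ∈ A := by
      have := hnd 0 (Nat.succ_pos k)
      simpa using this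
    have hXn : X < n := (hsupp n (Finset.mem_filter.1 hn0).2.2.2).1
    refine ⟨n, d, ?_, hd1, ?_, fun j hj => ?_⟩
    · have h1 : (n₀ : ℝ) < n := by linarith
      exact_mod_cast h1.le
    · refine hd2.trans (pow_le_pow_left₀ hlog.le ?_ _)
      exact Real.log_le_log hX0 hXn.le
    · have h1 := hnd j (by omega)
      have h2 := (Finset.mem_filter.1 h1).2
      exact ⟨h2.1, (hsupp _ h2.2.2).2.2⟩

end Pool.Agent.Y520.NP
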