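import Pool.Agent.Y520.NP.BM

/-!
# Project NP (helper520): the final theorem from `S_INF` and `S_RAM`
-/

set_option autoImplicit false

open Finset Filter Topology

namespace Pool.Agent.Y520.NP

/-- the hereditary theorem: every infinite set of integers contains an infinite set all of whose
subsets are exact patterns of primes along narrow progressions of every length -/
def S_HER : Prop := ∀ (r : ℕ) (χ : ℕ → Fin (r + 1)) (F : Set ℤ), F.Infinite →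
  ∃ G ⊆ F, G.Infinite ∧ ∀ I ⊆ G, ∀ R k : ℕ, ∃ C : ℕ, ∀ n₀ : ℕ, ∃ n d : ℕ, n₀ ≤ n ∧ 1 ≤ d ∧
    (d : ℝ) ≤ Real.log n ^ C ∧ ∀ j < k, ∀ y : ℤ, |y| ≤ R →
      ((Nat.Prime ((n : ℤ) + j * d + y).toNat ↔ y ∈ I) ∧
        (y ∈ I → χ ((n : ℤ) + j * d + y).toNat = χ ((n : ℤ) + y).toNat))

theorem her (hI : S_INF) (hR : S_RAM) : S_HER := by
  intro r χ F hF
  set Φ : ℕ → Set ℤ → Prop := fun R I => ∀ k : ℕ, ∃ C : ℕ, ∀ n₀ : ℕ, ∃ n d : ℕ, n₀ ≤ n ∧ 1 ≤ d ∧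
    (d : ℝ) ≤ Real.log n ^ C ∧ ∀ j < k, ∀ y : ℤ, |y| ≤ R →
      ((Nat.Prime ((n : ℤ) + j * d + y).toNat ↔ y ∈ I) ∧
        (y ∈ I → χ ((n : ℤ) + j * d + y).toNat = χ ((n : ℤ) + y).toNat)) with hΦ
  have h1 : ∀ (R : ℕ) (B B' : Set ℤ), (∀ y : ℤ, |y| ≤ R → (y ∈ B ↔ y ∈ B')) → Φ R B → Φ R B' := by
    intro R B B' hBB hB k
    obtain ⟨C, hC⟩ := hB k
    refine ⟨C, fun n₀ => ?_⟩
    obtain ⟨n, d, hn, hd1, hd2, h⟩ := hC n₀
    refine ⟨n, d, hn, hd1, hd2, fun j hj y hy => ?_⟩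
    obtain ⟨h3, h4⟩ := h j hj y hy
    exact ⟨h3.trans (hBB y hy), fun hyB => h4 ((hBB y hy).2 hyB)⟩
  have h2 : ∀ F : Set ℤ, F.Infinite → ∃ G ⊆ F, G.Infinite ∧ ∀ R, Φ R G := by
    intro F hF
    obtain ⟨G, hGF, hG, γ, h⟩ := hI r χ F hF
    refine ⟨G, hGF, hG, fun R k => ?_⟩
    obtain ⟨C, hC⟩ := h R (k + 1)
    refine ⟨C, fun n₀ => ?_⟩
    obtain ⟨n, d, hn, hd1, hd2, h⟩ := hC n₀
    refine ⟨n, d, hn, hd1, hd2, fun j hj y hy => ?_⟩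
    have h5 := h j (by omega) y hy
    have h6 := h 0 (by omega) y hy
    have e1 : ((n + j * d : ℕ) : ℤ) + y = (n : ℤ) + j * d + y := by push_cast; ring
    have e2 : ((n + 0 * d : ℕ) : ℤ) + y = (n : ℤ) + y := by push_cast; ring
    rw [e1] at h5
    rw [e2] at h6
    exact ⟨h5.1, fun hy => (h5.2 hy).trans (h6.2 hy).symm⟩
  obtain ⟨G, hGF, hG, h⟩ := hR Φ h1 h2 F hF
  exact ⟨G, hGF, hG, fun I hI R k => h I hI R k⟩

end Pool.Agent.Y520.NP
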