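import Pool.Agent.Y520.NP.BMg

/-!
# Project NP (helper520): the finite coloured theorem with exact patterns, from `BMg`
-/

set_option autoImplicit false

open Finset Filter Topology

namespace Pool.Agent.Y520.NP

open Pool.Agent.H361R2.Inf (FMeas)

/-- the prime numbers within distance `R` of `n` are exactly the `n + y`, `y ∈ P` -/
def Pat (R : ℕ) (P : Set ℤ) : Set ℕ :=
  {n : ℕ | ∀ y : ℤ, |y| ≤ R → (Nat.Prime ((n : ℤ) + y).toNat ↔ y ∈ P)}

theorem NAP_map {T T' : Set ℕ} (s n₁ : ℕ) (h : ∀ n ∈ T, n₁ ≤ n → n + s ∈ T') (hT : NAP T) : NAP T' := by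
  intro k
  obtain ⟨C, hC⟩ := hT k
  refine ⟨C, fun n₀ => ?_⟩
  obtain ⟨n, d, hn, hd1, hd2, hnd⟩ := hC (max (max n₀ n₁) 1)
  have hn1 : 1 ≤ n := (le_max_right _ _).trans hn
  have hn2 : n₀ ≤ n := (le_max_left _ _).trans ((le_max_left _ _).trans hn)
  have hn3 : n₁ ≤ n := (le_max_right _ _).trans ((le_max_left _ _).trans hn)
  refine ⟨n + s, d, by omega, hd1, hd2.trans ?_, fun j hj => ?_⟩
  · apply pow_le_pow_left₀ (Real.log_natCast_nonneg n)
    apply Real.log_le_log (by exact_mod_cast hn1)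
    exact_mod_cast Nat.le_add_right n s
  · have h1 := h _ (hnd j hj) (by omega)
    have e : n + j * d + s = n + s + j * d := by ring
    rwa [e] at h1

theorem NAP_mono {T T' : Set ℕ} (h : T ⊆ T') (hT : NAP T) : NAP T' :=
  NAP_map 0 0 (fun n hn _ => by simpa using h hn) hT

/-- Chinese remainder theorem for the primes up to `M` -/
theorem crtM (r : ℕ → ℤ) (M : ℕ) : ∃ a0 : ℕ, ∀ p : ℕ, p.Prime → p ≤ M → (p : ℤ) ∣ (a0 : ℤ) - r p := by
  classical
  have hco : Set.Pairwise (↑((range (M + 1)).filter Nat.Prime) : Set ℕ)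
      (Function.onFun Nat.Coprime (fun p : ℕ => p)) := by
    intro p hp q hq hpq
    rw [mem_coe, mem_filter] at hp hq
    exact (Nat.coprime_primes hp.2 hq.2).mpr hpq
  have hz : ∀ p ∈ (range (M + 1)).filter Nat.Prime, (fun p : ℕ => p) p ≠ 0 := by
    intro p hp
    rw [mem_filter] at hp
    exact hp.2.ne_zero
  refine ⟨(Nat.chineseRemainderOfFinset (fun p => (r p % p).toNat) (fun p => p)
    ((range (M + 1)).filter Nat.Prime) hz hco : ℕ), ?_⟩
  intro p hp hpM
  have h1 := (Nat.chineseRemainderOfFinset (fun p => (r p % p).toNat) (fun p => p)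
    ((range (M + 1)).filter Nat.Prime) hz hco).2 p (mem_filter.mpr ⟨mem_range.mpr (by omega), hp⟩)
  have hp0 : (p : ℤ) ≠ 0 := by exact_mod_cast hp.ne_zero
  have h2 := (Int.natCast_modEq_iff.2 h1).symm.dvd
  rw [Int.toNat_of_nonneg (Int.emod_nonneg _ hp0)] at h2
  have h3 : (p : ℤ) ∣ r p - r p % p := Int.dvd_self_sub_emod
  have h4 := dvd_sub h2 h3
  have e : ∀ x y w : ℤ, x - y - (w - y) = x - w := fun x y w => by ring
  rwa [e] at h4

/-- the product of the primes up to `M` -/
def prM (M : ℕ) : ℕ := ∏ p ∈ (range (M + 1)).filter Nat.Prime, p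

theorem prM_pos (M : ℕ) : 0 < prM M :=
  Finset.prod_pos fun p hp => (mem_filter.1 hp).2.pos

theorem prM_sq (M : ℕ) : Squarefree (prM M) := by
  unfold prM
  apply Finset.squarefree_prod_of_pairwise_isCoprime
  · intro p hp q hq hpq
    rw [mem_coe, mem_filter] at hp hq
    exact Nat.coprime_iff_isRelPrime.1 ((Nat.coprime_primes hp.2 hq.2).mpr hpq)
  · intro p hp
    exact (mem_filter.1 hp).2.prime.squarefree

theorem prime_dvd_prM {p M : ℕ} (hp : p.Prime) : p ∣ prM M ↔ p ≤ M := by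
  unfold prM
  constructor
  · intro h
    obtain ⟨q, hq, hpq⟩ := (hp.prime.dvd_finsetProd_iff _).1 h
    rw [mem_filter, mem_range] at hq
    rw [(Nat.prime_dvd_prime_iff_eq hp hq.2).1 hpq]
    omega
  · intro h
    exact Finset.dvd_prod_of_mem _ (mem_filter.2 ⟨mem_range.2 (by omega), hp⟩)

theorem sq_dvd {q : ℕ} (hq : Squarefree q) {x : ℤ} (h : ∀ p : ℕ, p.Prime → p ∣ q → (p : ℤ) ∣ x) :
    (q : ℤ) ∣ x := by
  rw [Int.natCast_dvd]
  rw [← Nat.prod_primeFactors_of_squarefree hq]
  apply Finset.prod_primes_dvd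
  · intro p hp
    exact (Nat.prime_of_mem_primeFactors hp).prime
  · intro p hp
    exact Int.natCast_dvd.1 (h p (Nat.prime_of_mem_primeFactors hp) (Nat.dvd_of_mem_primeFactors hp))

/-- the modulus, the class and the shifts -/
theorem setup {K : ℕ} (z q a : ℕ) (hsq : Squarefree q) (ha : a.Coprime q) (h : ℕ → ℤ)
    (hinj : ∀ i < K, ∀ j < K, h i = h j → i = j) (hdvd : ∀ i < K, (q : ℤ) ∣ h i)
    (hadm : ∀ p : ℕ, p.Prime → ¬ p ∣ q → ∃ n : ℤ, ∀ i < K, ¬ (p : ℤ) ∣ n + h i) (R : ℕ) :
    ∃ (W a0 T : ℕ) (t : ℕ → ℕ), Std K z W a0 t ∧ (∀ i < K, (t i : ℤ) = h i + T) ∧ q ∣ W ∧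
      (q : ℤ) ∣ (a0 : ℤ) + T - a ∧ ∃ n₁ : ℕ, ∀ n : ℕ, n₁ ≤ n → n ≡ a0 [MOD W] → ∀ y : ℤ, |y| ≤ R →
        (∀ i < K, y ≠ h i) → ¬ (((n + T : ℕ) : ℤ) + y).toNat.Prime := by
  classical
  set T : ℕ := ∑ i ∈ range K, (h i).natAbs + R with hT
  have hTi : ∀ i < K, (h i).natAbs + R ≤ T := by
    intro i hi
    have h1 : (h i).natAbs ≤ ∑ i ∈ range K, (h i).natAbs :=
      Finset.single_le_sum (f := fun i => (h i).natAbs) (fun _ _ => Nat.zero_le _)
        (mem_range.2 hi)
    omega
  set P0 : ℕ := max z (q + 2 * T + 1) with hP0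
  have hP1 : z ≤ P0 := le_max_left _ _
  have hP2 : q + 2 * T + 1 ≤ P0 := le_max_right _ _
  set u : ℕ → ℕ := fun k => Nat.nth Nat.Prime (P0 + 1 + k) with hu
  have hmono : StrictMono u := by
    intro i j hij
    exact Nat.nth_strictMono Nat.infinite_setOfPred_prime (by omega)
  have hup : ∀ k, (u k).Prime := fun k => Nat.prime_nth_prime _
  have hul : ∀ k, P0 < u k := by
    intro k
    have h1 : P0 + 1 + k ≤ u k :=
      (Nat.nth_strictMono Nat.infinite_setOfPred_prime).le_apply (x := P0 + 1 + k)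
    omega
  set M : ℕ := u (2 * R) with hM
  have hMP : P0 < M := hul _
  choose! np hnp using hadm
  set B : ℕ → ℤ → Prop := fun p y => |y| ≤ R ∧ (∀ i < K, y ≠ h i) ∧ u (y + R).toNat = p with hB
  set r : ℕ → ℤ := fun p => if p ∣ q then (a : ℤ) - T else if hy : ∃ y, B p y then -(hy.choose + T)
    else np p - T with hr
  obtain ⟨a0, ha0⟩ := crtM r M
  have huniq : ∀ p y y', B p y → B p y' → y = y' := by
    intro p y y' h1 h2
    have h3 : u (y + R).toNat = u (y' + R).toNat := h1.2.2.trans h2.2.2.symm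
    have h4 := hmono.injective h3
    have h5 := abs_le.1 h1.1
    have h6 := abs_le.1 h2.1
    omega
  have hrB : ∀ p y, B p y → r p = -(y + T) := by
    intro p y hy
    have h1 : ¬ p ∣ q := by
      intro hd
      by_cases hq0 : q = 0
      · exact absurd hsq (by rw [hq0]; exact not_squarefree_zero)
      · have := Nat.le_of_dvd (Nat.pos_of_ne_zero hq0) hd
        have h2 := hul (y + R).toNat
        rw [hy.2.2] at h2
        omega
    have h2 : ∃ y, B p y := ⟨y, hy⟩
    simp only [hr]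
    rw [if_neg h1, dif_pos h2, huniq p _ _ h2.choose_spec hy]
  refine ⟨prM M, a0, T, fun i => (h i + T).toNat, ⟨prM_pos M, prM_sq M, ?_, ?_, ?_⟩, ?_, ?_, ?_, ?_⟩
  · intro p hp hpz
    exact (prime_dvd_prM hp).2 (by omega)
  · intro i hi j hj hij p hp hd
    have h1 := hTi i hi
    have h2 := hTi j hj
    rw [Int.toNat_of_nonneg (by omega), Int.toNat_of_nonneg (by omega)] at hd
    have h3 : h i + T - (h j + T) ≠ 0 := by
      intro h0
      exact hij (hinj i hi j hj (by linarith))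
    have h4 := Int.le_of_dvd (abs_pos.2 h3) ((dvd_abs _ _).2 hd)
    apply (prime_dvd_prM hp).2
    have h5 : |h i + T - (h j + T)| ≤ 2 * T := by
      rw [abs_le]
      constructor <;> omega
    have h6 : (p : ℤ) ≤ 2 * T := h4.trans h5
    omega
  · intro i hi
    apply Nat.Coprime.symm
    rw [Nat.coprime_iff_gcd_eq_one]
    by_contra hcon
    obtain ⟨p, hp, hpd⟩ := Nat.exists_prime_and_dvd hcon
    have h1 : p ∣ prM M := hpd.trans (Nat.gcd_dvd_left _ _)
    have h2 : p ∣ a0 + (h i + T).toNat := hpd.trans (Nat.gcd_dvd_right _ _)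
    have h3 : p ≤ M := (prime_dvd_prM hp).1 h1
    have h4 := ha0 p hp h3
    have h5 := hTi i hi
    have h6 : (p : ℤ) ∣ (a0 : ℤ) + (h i + T) := by
      have := Int.natCast_dvd_natCast.2 h2
      rw [Nat.cast_add, Int.toNat_of_nonneg (by omega)] at this
      exact this
    have h7 : (p : ℤ) ∣ r p + T + h i := by
      have := dvd_sub h6 h4
      have e : (a0 : ℤ) + (h i + T) - (a0 - r p) = r p + T + h i := by ring
      rwa [e] at this
    by_cases hpq : p ∣ q
    · have e : r p = (a : ℤ) - T := by simp only [hr]; rw [if_pos hpq]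
      rw [e] at h7
      have h8 : (p : ℤ) ∣ h i := (Int.natCast_dvd_natCast.2 hpq).trans (hdvd i hi)
      have h9 : (p : ℤ) ∣ (a : ℤ) := by
        have := dvd_sub h7 h8
        have e : (a : ℤ) - T + T + h i - h i = a := by ring
        rwa [e] at this
      have h10 : p ∣ a := Int.natCast_dvd_natCast.1 h9
      have := Nat.eq_one_of_dvd_coprimes ha h10 hpq
      exact hp.one_lt.ne' this
    · by_cases hy : ∃ y, B p y
      · obtain ⟨y, hy⟩ := hy
        rw [hrB p y hy] at h7
        have e : -(y + (T : ℤ)) + T + h i = h i - y := by ring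
        rw [e] at h7
        have h8 : h i - y ≠ 0 := fun h0 => hy.2.1 i hi (by linarith)
        have h9 := Int.le_of_dvd (abs_pos.2 h8) ((dvd_abs _ _).2 h7)
        have h10 : |h i - y| ≤ 2 * T := by
          have := abs_le.1 hy.1
          rw [abs_le]
          constructor <;> omega
        have h11 : P0 < p := by
          have := hul (y + R).toNat
          rwa [hy.2.2] at this
        omega
      · have e : r p = np p - T := by
          simp only [hr]
          rw [if_neg hpq, dif_neg hy]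
        rw [e] at h7
        have e2 : np p - (T : ℤ) + T + h i = np p + h i := by ring
        rw [e2] at h7
        exact hnp p hp hpq i hi h7
  · intro i hi
    have h5 := hTi i hi
    rw [Int.toNat_of_nonneg (by omega)]
  · have : (q : ℤ) ∣ (prM M : ℤ) := by
      apply sq_dvd hsq
      intro p hp hpq
      apply Int.natCast_dvd_natCast.2
      apply (prime_dvd_prM hp).2
      have hq0 : q ≠ 0 := by rintro rfl; exact not_squarefree_zero hsq
      have := Nat.le_of_dvd (Nat.pos_of_ne_zero hq0) hpq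
      omega
    exact Int.natCast_dvd_natCast.1 this
  · apply sq_dvd hsq
    intro p hp hpq
    have hq0 : q ≠ 0 := by rintro rfl; exact not_squarefree_zero hsq
    have h1 := Nat.le_of_dvd (Nat.pos_of_ne_zero hq0) hpq
    have h2 := ha0 p hp (by omega)
    have e : r p = (a : ℤ) - T := by simp only [hr]; rw [if_pos hpq]
    rw [e] at h2
    have e2 : (a0 : ℤ) - (a - T) = a0 + T - a := by ring
    rwa [e2] at h2
  · refine ⟨M + 1, fun n hn hna y hy hyK hprime => ?_⟩
    have hb : B (u (y + R).toNat) y := ⟨hy, hyK, rfl⟩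
    set p := u (y + R).toNat with hp
    have hy2 := abs_le.1 hy
    have hpM : p ≤ M := hmono.monotone (by omega)
    have h1 := ha0 p (hup _) hpM
    rw [hrB p y hb] at h1
    have h2 : (p : ℤ) ∣ (n : ℤ) - a0 := by
      have h3 : (n : ℤ) ≡ a0 [ZMOD (prM M : ℕ)] := Int.natCast_modEq_iff.2 hna
      have h4 := h3.symm.dvd
      exact (Int.natCast_dvd_natCast.2 ((prime_dvd_prM (hup _)).2 hpM)).trans h4
    have h3 : (p : ℤ) ∣ ((n + T : ℕ) : ℤ) + y := by
      have := dvd_add h1 h2
      have e : (a0 : ℤ) - -(y + T) + (n - a0) = ((n + T : ℕ) : ℤ) + y := by push_cast; ring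
      rwa [e] at this
    have hTR : R ≤ T := by omega
    have h4 : (0 : ℤ) ≤ ((n + T : ℕ) : ℤ) + y := by push_cast; omega
    have h5 : p ∣ (((n + T : ℕ) : ℤ) + y).toNat := by
      have h6 : ((((((n + T : ℕ) : ℤ) + y).toNat : ℕ) : ℤ)) = ((n + T : ℕ) : ℤ) + y :=
        Int.toNat_of_nonneg h4
      rw [← h6] at h3
      exact Int.natCast_dvd_natCast.1 h3
    have h6 := (Nat.prime_dvd_prime_iff_eq (hup _) hprime).1 h5
    have h7 : (p : ℤ) = ((n + T : ℕ) : ℤ) + y := by
      have h8 : u (y + R).toNat = p := rfl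
      rw [h8] at h6
      rw [h6, Int.toNat_of_nonneg h4]
    push_cast at h7
    omega

end Pool.Agent.Y520.NP
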