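import Pool.Agent.Y520.NP.FinC
import Pool.Agent.H361R2.InfT1

/-!
# Project NP (helper520): the finite coloured theorem with exact patterns, from `BMg`
-/

set_option autoImplicit false

open Finset Filter Topology

namespace Pool.Agent.Y520.NP

open Pool.Agent.H361R2.Inf (FMeas)

theorem fm_empty {m : Set ℕ → ℝ} (hm : FMeas m) : m ∅ = 0 := hm.fin ∅ Set.finite_empty

/-- a finitely additive measure and a finite partition -/
theorem fm_part {m : Set ℕ → ℝ} (hm : FMeas m) {α : Type*} [DecidableEq α] (φ : ℕ → α) (S : Set ℕ)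
    (F : Finset α) : m {n | n ∈ S ∧ φ n ∈ F} = ∑ x ∈ F, m {n | n ∈ S ∧ φ n = x} := by
  classical
  induction F using Finset.induction_on with
  | empty =>
    have : {n | n ∈ S ∧ φ n ∈ (∅ : Finset α)} = ∅ := by ext n; simp
    rw [this, fm_empty hm, Finset.sum_empty]
  | insert x F hx ih =>
    rw [Finset.sum_insert hx, ← ih, ← hm.add]
    · congr 1
      ext n
      simp only [Set.mem_ofPred_eq, Set.mem_union, Finset.mem_insert]
      tauto
    · rw [Set.disjoint_left]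
      rintro n ⟨_, h1⟩ ⟨_, h2⟩
      exact hx (h1 ▸ h2)

/-- some cell of the partition with many hits has positive measure -/
theorem cell {m : Set ℕ → ℝ} (hm : FMeas m) (E : ℕ → ℕ → Prop) (K J : ℕ) (blk : ℕ → Finset ℕ)
    (hblk : ∀ s < J, ∀ i ∈ blk s, i < K) (tot c : ℝ) (htot : m Set.univ ≤ tot)
    (hc : ∀ s < J, c ≤ m {n | ∃ i ∈ blk s, E i n}) (r : ℕ) (hr : (r : ℝ) * tot < J * c) :
    ∃ Q ⊆ range K, r + 1 ≤ ((range J).filter (fun s => ∃ i ∈ blk s, i ∈ Q)).card ∧
      0 < m {n | ∀ i < K, (E i n ↔ i ∈ Q)} := by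
  classical
  set φ : ℕ → Finset ℕ := fun n => (range K).filter (fun i => E i n) with hφ
  have hφmem : ∀ n, φ n ∈ (range K).powerset := fun n => mem_powerset.2 (filter_subset _ _)
  have hcell : ∀ Q ⊆ range K, {n | ∀ i < K, (E i n ↔ i ∈ Q)} = {n | φ n = Q} := by
    intro Q hQ
    ext n
    simp only [Set.mem_ofPred_eq, hφ]
    constructor
    · intro h
      ext i
      rw [mem_filter, mem_range]
      constructor
      · rintro ⟨h1, h2⟩
        exact (h i h1).1 h2
      · intro h1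
        have h2 := mem_range.1 (hQ h1)
        exact ⟨h2, (h i h2).2 h1⟩
    · intro h i hi
      rw [← h, mem_filter, mem_range]
      tauto
  by_contra hcon
  push Not at hcon
  set hits : Finset ℕ → ℕ := fun Q => ((range J).filter (fun s => ∃ i ∈ blk s, i ∈ Q)).card with hhits
  have hle : ∀ Q ∈ (range K).powerset, (hits Q : ℝ) * m {n | φ n = Q} ≤ r * m {n | φ n = Q} := by
    intro Q hQ
    rw [mem_powerset] at hQ
    have h0 := hm.nonneg {n | φ n = Q}
    by_cases h : r + 1 ≤ hits Q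
    · have h1 := hcon Q hQ h
      rw [hcell Q hQ] at h1
      have h2 : m {n | φ n = Q} = 0 := le_antisymm h1 h0
      rw [h2, mul_zero, mul_zero]
    · apply mul_le_mul_of_nonneg_right _ h0
      exact_mod_cast (by omega : hits Q ≤ r)
  have h1 : m Set.univ = ∑ Q ∈ (range K).powerset, m {n | φ n = Q} := by
    have h2 := fm_part hm φ Set.univ (range K).powerset
    have e1 : {n | n ∈ Set.univ ∧ φ n ∈ (range K).powerset} = Set.univ := by
      ext n
      simp only [Set.mem_ofPred_eq, Set.mem_univ, true_and, iff_true]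
      exact hφmem n
    rw [e1] at h2
    rw [h2]
    apply Finset.sum_congr rfl
    intro Q _
    congr 1
    ext n
    simp
  have h2 : ∀ s < J, m {n | ∃ i ∈ blk s, E i n} =
      ∑ Q ∈ (range K).powerset, if ∃ i ∈ blk s, i ∈ Q then m {n | φ n = Q} else 0 := by
    intro s hs
    have h3 := fm_part hm φ {n | ∃ i ∈ blk s, E i n} (range K).powerset
    have e1 : {n | n ∈ {n | ∃ i ∈ blk s, E i n} ∧ φ n ∈ (range K).powerset} =
        {n | ∃ i ∈ blk s, E i n} := by
      ext n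
      simp only [Set.mem_ofPred_eq, and_iff_left_iff_imp]
      intro _
      exact hφmem n
    rw [e1] at h3
    rw [h3]
    apply Finset.sum_congr rfl
    intro Q hQ
    have h4 : ∀ n, φ n = Q → ((∃ i ∈ blk s, E i n) ↔ ∃ i ∈ blk s, i ∈ Q) := by
      intro n hn
      constructor
      · rintro ⟨i, hi, hE⟩
        refine ⟨i, hi, ?_⟩
        rw [← hn]
        exact mem_filter.2 ⟨mem_range.2 (hblk s hs i hi), hE⟩
      · rintro ⟨i, hi, hE⟩
        refine ⟨i, hi, ?_⟩
        rw [← hn] at hE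
        exact (mem_filter.1 hE).2
    split_ifs with hh
    · congr 1
      ext n
      simp only [Set.mem_ofPred_eq]
      constructor
      · exact fun h => h.2
      · exact fun h => ⟨(h4 n h).2 hh, h⟩
    · have : {n | n ∈ {n | ∃ i ∈ blk s, E i n} ∧ φ n = Q} = ∅ := by
        ext n
        simp only [Set.mem_ofPred_eq, Set.mem_empty_iff_false, iff_false]
        rintro ⟨h5, h6⟩
        exact hh ((h4 n h6).1 h5)
      rw [this, fm_empty hm]
  have h3 : (J : ℝ) * c ≤ ∑ Q ∈ (range K).powerset, (hits Q : ℝ) * m {n | φ n = Q} := by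
    calc (J : ℝ) * c = ∑ _s ∈ range J, c := by rw [sum_const, card_range, nsmul_eq_mul]
      _ ≤ ∑ s ∈ range J, m {n | ∃ i ∈ blk s, E i n} :=
          Finset.sum_le_sum fun s hs => hc s (mem_range.1 hs)
      _ = ∑ s ∈ range J, ∑ Q ∈ (range K).powerset,
            if ∃ i ∈ blk s, i ∈ Q then m {n | φ n = Q} else 0 :=
          Finset.sum_congr rfl fun s hs => h2 s (mem_range.1 hs)
      _ = ∑ Q ∈ (range K).powerset, (hits Q : ℝ) * m {n | φ n = Q} := by
          rw [Finset.sum_comm]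
          apply Finset.sum_congr rfl
          intro Q _
          rw [← Finset.sum_filter, sum_const, nsmul_eq_mul]
  have h4 : ∑ Q ∈ (range K).powerset, (hits Q : ℝ) * m {n | φ n = Q} ≤ r * tot := by
    calc _ ≤ ∑ Q ∈ (range K).powerset, (r : ℝ) * m {n | φ n = Q} := Finset.sum_le_sum hle
      _ = r * m Set.univ := by rw [← Finset.mul_sum, ← h1]
      _ ≤ r * tot := mul_le_mul_of_nonneg_left htot (Nat.cast_nonneg _)
  linarith

/-- exact patterns, for one `R` -/
theorem fin_pat1 {K J : ℕ} {blk : ℕ → Finset ℕ} {tot c : ℝ} (hBM : BMg K J blk tot c)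
    (hblk : ∀ s < J, ∀ i ∈ blk s, i < K) (r : ℕ) (hr : (r : ℝ) * tot < J * c)
    (q a : ℕ) (hsq : Squarefree q) (ha : a.Coprime q) (h : ℕ → ℤ)
    (hinj : ∀ i < K, ∀ j < K, h i = h j → i = j) (hdvd : ∀ i < K, (q : ℤ) ∣ h i)
    (hadm : ∀ p : ℕ, p.Prime → ¬ p ∣ q → ∃ n : ℤ, ∀ i < K, ¬ (p : ℤ) ∣ n + h i) (R : ℕ) :
    ∃ Q ⊆ range K, r + 1 ≤ ((range J).filter (fun s => ∃ i ∈ blk s, i ∈ Q)).card ∧
      NAP {n | n ∈ Pat R {y | ∃ i ∈ Q, y = h i} ∧ n ≡ a [MOD q]} := by
  classical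
  obtain ⟨z, hz⟩ := hBM
  obtain ⟨W, a0, T, t, hstd, ht, hqW, ha0, n₁, hn₁⟩ := setup z q a hsq ha h hinj hdvd hadm R
  obtain ⟨m, hm, htot, hc, hNAP⟩ := hz W a0 t hstd
  obtain ⟨Q, hQ, hhit, hpos⟩ := cell hm (fun i n => (n + t i).Prime) K J blk hblk tot c htot hc r hr
  refine ⟨Q, hQ, hhit, ?_⟩
  refine NAP_map T n₁ ?_ (hNAP _ hpos)
  rintro n ⟨hn1, hn2⟩ hn3
  refine ⟨fun y hy => ?_, ?_⟩
  · by_cases hyh : ∃ i < K, y = h i
    · obtain ⟨i, hi, rfl⟩ := hyh
      have e : (((n + T : ℕ) : ℤ) + h i).toNat = n + t i := by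
        have : (((n + T : ℕ) : ℤ) + h i) = ((n + t i : ℕ) : ℤ) := by
          push_cast
          rw [ht i hi]
          ring
        rw [this, Int.toNat_natCast]
      rw [e, hn1 i hi]
      simp only [Set.mem_ofPred_eq]
      constructor
      · intro h1
        exact ⟨i, h1, rfl⟩
      · rintro ⟨j, hj, hij⟩
        rw [hinj i hi j (mem_range.1 (hQ hj)) hij]
        exact hj
    · push Not at hyh
      constructor
      · intro h1
        exact absurd h1 (hn₁ n hn3 hn2 y hy hyh)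
      · rintro ⟨i, hi, hyi⟩
        exact absurd hyi (hyh i (mem_range.1 (hQ hi)))
  · have h1 : (q : ℤ) ∣ (n : ℤ) - a0 := by
      have h3 : (n : ℤ) ≡ a0 [ZMOD W] := Int.natCast_modEq_iff.2 hn2
      exact (Int.natCast_dvd_natCast.2 hqW).trans h3.symm.dvd
    have h2 : (q : ℤ) ∣ ((n + T : ℕ) : ℤ) - a := by
      have := dvd_add h1 ha0
      have e : (n : ℤ) - a0 + (a0 + T - a) = ((n + T : ℕ) : ℤ) - a := by push_cast; ring
      rwa [e] at this
    exact Int.natCast_modEq_iff.1 (Int.modEq_iff_dvd.2 h2).symm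

/-- exact patterns, for all `R` at the same time -/
theorem fin_pat {K J : ℕ} {blk : ℕ → Finset ℕ} {tot c : ℝ} (hBM : BMg K J blk tot c)
    (hblk : ∀ s < J, ∀ i ∈ blk s, i < K) (r : ℕ) (hr : (r : ℝ) * tot < J * c)
    (q a : ℕ) (hsq : Squarefree q) (ha : a.Coprime q) (h : ℕ → ℤ)
    (hinj : ∀ i < K, ∀ j < K, h i = h j → i = j) (hdvd : ∀ i < K, (q : ℤ) ∣ h i)
    (hadm : ∀ p : ℕ, p.Prime → ¬ p ∣ q → ∃ n : ℤ, ∀ i < K, ¬ (p : ℤ) ∣ n + h i) :
    ∃ Q ⊆ range K, r + 1 ≤ ((range J).filter (fun s => ∃ i ∈ blk s, i ∈ Q)).card ∧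
      ∀ R : ℕ, NAP {n | n ∈ Pat R {y | ∃ i ∈ Q, y = h i} ∧ n ≡ a [MOD q]} := by
  classical
  choose f hf1 hf2 hf3 using fin_pat1 hBM hblk r hr q a hsq ha h hinj hdvd hadm
  set g : ℕ → {Q : Finset ℕ // Q ∈ (range K).powerset} := fun R => ⟨f R, mem_powerset.2 (hf1 R)⟩
    with hg
  obtain ⟨⟨Q, hQ⟩, hinf⟩ := Finite.exists_infinite_fiber g
  rw [Set.infinite_coe_iff] at hinf
  refine ⟨Q, mem_powerset.1 hQ, ?_, fun R => ?_⟩
  · obtain ⟨R, hR⟩ := hinf.nonempty
    have h1 : f R = Q := congrArg Subtype.val hR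
    rw [← h1]
    exact hf2 R
  · obtain ⟨R', hR', hRR⟩ := hinf.exists_gt R
    have h1 : f R' = Q := congrArg Subtype.val hR'
    have h2 := hf3 R'
    rw [h1] at h2
    refine NAP_mono ?_ h2
    rintro n ⟨h3, h4⟩
    refine ⟨fun y hy => h3 y (hy.trans ?_), h4⟩
    exact_mod_cast hRR.le

end Pool.Agent.Y520.NP
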