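import Pool.Agent.Y520.NP.FinP
import Pool.Agent.W142.TF.All

/-!
# Project NP (helper520): gaps between consecutive primes along narrow progressions
-/

set_option autoImplicit false

open Finset Filter Topology

namespace Pool.Agent.Y520.NP

open Pool.Agent.H947R3.GM (AdmN)

/-- (SH) the sharp form: `T` blocks of `K` coordinates each, total mass `1 + ε`, block masses `1/4 - ε` -/
def S_SH : Prop := ∀ (T : ℕ) (ε : ℝ), 1 ≤ T → 0 < ε → ∃ K : ℕ, 1 ≤ K ∧
  BLKg (T * K) T (fun s => Ico (s * K) ((s + 1) * K)) (1 + ε) (1 / 4 - ε)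

/-- classes of shifts: a quarter of the classes contains primes, along narrow progressions, the primes
within distance `R` being known -/
def S_CLS : Prop := ∀ T : ℕ, 1 ≤ T → ∃ K : ℕ, 1 ≤ K ∧ ∀ (q a : ℕ), Squarefree q → a.Coprime q →
  ∀ H : Fin T → Fin K → ℕ, AdmN q H → ∃ P : Finset (Fin T × Fin K),
    T ≤ 4 * (P.image Prod.fst).card ∧
    ∀ R : ℕ, NAP {n | n ∈ Pat R {y | ∃ x ∈ P, y = (q * H x.1 x.2 : ℕ)} ∧ n ≡ a [MOD q]}

theorem cls (hS : S_SH) (hN : S_NAR) : S_CLS := by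
  classical
  intro T hT
  have hT0 : (0 : ℝ) < T := by exact_mod_cast hT
  -- `r + 1` is the least integer `≥ T / 4`
  obtain ⟨r, hr1, hr2⟩ : ∃ r : ℕ, 4 * r < T ∧ T ≤ 4 * (r + 1) := ⟨(T - 1) / 4, by omega, by omega⟩
  set ε : ℝ := 1 / (4 * (T + r + 1)) with hε
  have hr0 : (0 : ℝ) ≤ r := Nat.cast_nonneg r
  have hε0 : 0 < ε := by rw [hε]; positivity
  obtain ⟨K, hK, hB⟩ := hS T ε hT hε0
  have hineq : (r : ℝ) * (1 + ε) < (T : ℝ) * (1 / 4 - ε) := by
    have h1 : (4 : ℝ) * r + 1 ≤ T := by exact_mod_cast hr1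
    have h2 : ε * (4 * (T + r + 1)) = 1 := by rw [hε]; field_simp
    nlinarith
  refine ⟨K, hK, fun q a hsq ha H hH => ?_⟩
  -- the shifts as a sequence
  set h : ℕ → ℤ := fun i => if hi : i / K < T then
    ((q * H ⟨i / K, hi⟩ ⟨i % K, Nat.mod_lt _ hK⟩ : ℕ) : ℤ) else 0 with hh
  have hq0 : 0 < q := Nat.pos_of_ne_zero (by rintro rfl; exact not_squarefree_zero hsq)
  have hdiv : ∀ i < T * K, i / K < T := fun i hi => Nat.div_lt_of_lt_mul (by rwa [mul_comm] at hi)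
  have hval : ∀ i (hi : i < T * K), h i =
      ((q * H ⟨i / K, hdiv i hi⟩ ⟨i % K, Nat.mod_lt _ hK⟩ : ℕ) : ℤ) := by
    intro i hi
    simp only [hh]
    rw [dif_pos (hdiv i hi)]
  have hinj : ∀ i < T * K, ∀ j < T * K, h i = h j → i = j := by
    intro i hi j hj hij
    rw [hval i hi, hval j hj] at hij
    have h1 := Nat.eq_of_mul_eq_mul_left hq0 (by exact_mod_cast hij)
    have h2 := hH.1 (a₁ := (⟨i / K, hdiv i hi⟩, ⟨i % K, Nat.mod_lt _ hK⟩))
      (a₂ := (⟨j / K, hdiv j hj⟩, ⟨j % K, Nat.mod_lt _ hK⟩)) h1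
    simp only [Prod.mk.injEq, Fin.mk.injEq] at h2
    rw [← Nat.div_add_mod i K, ← Nat.div_add_mod j K, h2.1, h2.2]
  have hdvd : ∀ i < T * K, (q : ℤ) ∣ h i := by
    intro i hi
    rw [hval i hi]
    push_cast
    exact dvd_mul_right _ _
  have hadm : ∀ p : ℕ, p.Prime → ¬ p ∣ q → ∃ n : ℤ, ∀ i < T * K, ¬ (p : ℤ) ∣ n + h i := by
    intro p hp hpq
    obtain ⟨n, hn⟩ := hH.2 p hp hpq
    refine ⟨q * n, fun i hi hd => ?_⟩
    rw [hval i hi] at hd
    have e : (q : ℤ) * n + ((q * H ⟨i / K, hdiv i hi⟩ ⟨i % K, Nat.mod_lt _ hK⟩ : ℕ) : ℤ) =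
        q * (n + H ⟨i / K, hdiv i hi⟩ ⟨i % K, Nat.mod_lt _ hK⟩) := by push_cast; ring
    rw [e] at hd
    rcases (Nat.prime_iff_prime_int.1 hp).dvd_or_dvd hd with h1 | h1
    · exact hpq (by exact_mod_cast h1)
    · exact hn _ _ h1
  have hblk : ∀ s < T, ∀ i ∈ Ico (s * K) ((s + 1) * K), i < T * K := by
    intro s hs i hi
    rw [mem_Ico] at hi
    exact hi.2.trans_le (Nat.mul_le_mul_right K hs)
  obtain ⟨Q, hQ, hhit, hNAP⟩ := fin_pat (bmg hB hN) hblk r hineq q a hsq ha h hinj hdvd hadm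
  set P : Finset (Fin T × Fin K) := univ.filter (fun x => (x.1 : ℕ) * K + x.2 ∈ Q) with hP
  have hcoord : ∀ x : Fin T × Fin K, (x.1 : ℕ) * K + x.2 < T * K := by
    intro x
    have h1 := x.1.2
    have h2 := x.2.2
    calc (x.1 : ℕ) * K + x.2 < x.1 * K + K := by omega
      _ = (x.1 + 1) * K := by ring
      _ ≤ T * K := Nat.mul_le_mul_right K h1
  have hmod : ∀ x : Fin T × Fin K, ((x.1 : ℕ) * K + x.2) / K = x.1 ∧ ((x.1 : ℕ) * K + x.2) % K = x.2 := by
    intro x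
    constructor
    · rw [Nat.add_comm, Nat.add_mul_div_right _ _ hK, Nat.div_eq_of_lt x.2.2, zero_add]
    · rw [Nat.add_comm, Nat.add_mul_mod_self_right, Nat.mod_eq_of_lt x.2.2]
  have hhx : ∀ x : Fin T × Fin K, h ((x.1 : ℕ) * K + x.2) = ((q * H x.1 x.2 : ℕ) : ℤ) := by
    intro x
    rw [hval _ (hcoord x)]
    have e1 : (⟨((x.1 : ℕ) * K + x.2) / K, hdiv _ (hcoord x)⟩ : Fin T) = x.1 := Fin.ext (hmod x).1
    have e2 : (⟨((x.1 : ℕ) * K + x.2) % K, Nat.mod_lt _ hK⟩ : Fin K) = x.2 := Fin.ext (hmod x).2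
    rw [e1, e2]
  refine ⟨P, ?_, fun R => ?_⟩
  · have h1 : r + 1 ≤ (P.image Prod.fst).card := by
      refine hhit.trans ?_
      rw [← Finset.card_map (Fin.valEmbedding : Fin T ↪ ℕ) (s := P.image Prod.fst)]
      apply Finset.card_le_card
      intro s hs
      rw [mem_filter, mem_range] at hs
      obtain ⟨hs1, i, hi, hiQ⟩ := hs
      rw [mem_Ico] at hi
      rw [Finset.mem_map]
      refine ⟨⟨s, hs1⟩, ?_, rfl⟩
      rw [mem_image]
      have hiK : i - s * K < K := by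
        have : (s + 1) * K = s * K + K := by ring
        omega
      refine ⟨(⟨s, hs1⟩, ⟨i - s * K, hiK⟩), ?_, rfl⟩
      rw [hP, mem_filter]
      refine ⟨mem_univ _, ?_⟩
      have : s * K + (i - s * K) = i := by omega
      simp only
      rw [this]
      exact hiQ
    omega
  · refine NAP_mono ?_ (hNAP R)
    rintro n ⟨h3, h4⟩
    refine ⟨fun y hy => (h3 y hy).trans ?_, h4⟩
    simp only [Set.mem_ofPred_eq]
    constructor
    · rintro ⟨i, hi, rfl⟩
      have hi2 := mem_range.1 (hQ hi)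
      refine ⟨(⟨i / K, hdiv i hi2⟩, ⟨i % K, Nat.mod_lt _ hK⟩), ?_, hval i hi2⟩
      rw [hP, mem_filter]
      refine ⟨mem_univ _, ?_⟩
      have : i / K * K + i % K = i := by rw [mul_comm]; exact Nat.div_add_mod i K
      simp only
      rw [this]
      exact hi
    · rintro ⟨x, hx, rfl⟩
      rw [hP, mem_filter] at hx
      exact ⟨_, hx.2, (hhx x).symm⟩

end Pool.Agent.Y520.NP
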