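import Pool.Agent.Y520.NP.Shp

/-!
# Project NP (helper520): two fifths of the multiples of every sufficiently divisible number are gaps
which recur along narrow progressions of primes
-/

set_option autoImplicit false

open Finset Filter Topology

namespace Pool.Agent.Y520.NP

open Pool.Agent.H947R3.GM (AdmN)
open Pool.Agent.W142.TF

/-- the `m` such that `q m` is the distance to the next prime for all terms of narrow progressions of
primes `≡ a (mod q)` of every length, arbitrarily far out -/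
def GapN (q a : ℕ) : Set ℕ := {m | ∀ l : ℕ, ∃ C : ℕ, ∀ x₀ : ℕ, ∃ p d : ℕ, x₀ ≤ p ∧ 1 ≤ d ∧
  (d : ℝ) ≤ Real.log p ^ C ∧ ∀ j < l, p + j * d ≡ a [MOD q] ∧ (p + j * d).Prime ∧
    (p + j * d + q * m).Prime ∧ ∀ r, p + j * d < r → r < p + j * d + q * m → ¬ r.Prime}

theorem gapN_of_nap {q a m x : ℕ} (h : NAP {n | n + x ≡ a [MOD q] ∧ (n + x).Prime ∧
    (n + x + q * m).Prime ∧ ∀ r, n + x < r → r < n + x + q * m → ¬ r.Prime}) : m ∈ GapN q a := by
  have h1 : NAP {p : ℕ | p ≡ a [MOD q] ∧ p.Prime ∧ (p + q * m).Prime ∧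
      ∀ r, p < r → r < p + q * m → ¬ r.Prime} := NAP_map x 0 (fun n hn _ => hn) h
  intro l
  obtain ⟨C, hC⟩ := h1 l
  refine ⟨C, fun x₀ => ?_⟩
  obtain ⟨n, d, h2, h3, h4, h5⟩ := hC x₀
  exact ⟨n, d, h2, h3, h4, h5⟩

/-- two adjacent elements in different classes -/
theorem adj {T K : ℕ} (H : Fin T → Fin K → ℕ)
    (hinj : Function.Injective (fun x : Fin T × Fin K => H x.1 x.2))
    (P : Finset (Fin T × Fin K)) (hP : 2 ≤ (P.image Prod.fst).card) :
    ∃ x ∈ P, ∃ y ∈ P, x.1 ≠ y.1 ∧ H x.1 x.2 < H y.1 y.2 ∧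
      ∀ z ∈ P, ¬ (H x.1 x.2 < H z.1 z.2 ∧ H z.1 z.2 < H y.1 y.2) := by
  classical
  have hne : P.Nonempty := by
    rw [nonempty_iff_ne_empty]
    rintro rfl
    simp at hP
  obtain ⟨x₀, hx₀, hmin₀⟩ := P.exists_min_image (fun x => H x.1 x.2) hne
  have hA : (P.filter (fun x => x.1 ≠ x₀.1)).Nonempty := by
    by_contra hcon
    rw [not_nonempty_iff_eq_empty, filter_eq_empty_iff] at hcon
    have h1 : P.image Prod.fst ⊆ {x₀.1} := by
      intro s hs
      rw [mem_image] at hs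
      obtain ⟨x, hx, rfl⟩ := hs
      rw [mem_singleton]
      by_contra h
      exact hcon hx h
    have h2 := card_le_card h1
    rw [card_singleton] at h2
    omega
  obtain ⟨y, hy, hminy⟩ := (P.filter (fun x => x.1 ≠ x₀.1)).exists_min_image (fun x => H x.1 x.2) hA
  rw [mem_filter] at hy
  have hB : (P.filter (fun x => H x.1 x.2 < H y.1 y.2)).Nonempty := by
    refine ⟨x₀, mem_filter.2 ⟨hx₀, ?_⟩⟩
    have h1 := hmin₀ y hy.1
    rcases h1.lt_or_eq with h2 | h2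
    · exact h2
    · exact absurd (congrArg Prod.fst (hinj h2.symm)) hy.2
  obtain ⟨x, hx, hmaxx⟩ := (P.filter (fun x => H x.1 x.2 < H y.1 y.2)).exists_max_image
    (fun x => H x.1 x.2) hB
  rw [mem_filter] at hx
  refine ⟨x, hx.1, y, hy.1, ?_, hx.2, ?_⟩
  · intro hxy
    have h1 : x.1 ≠ x₀.1 := by rw [hxy]; exact hy.2
    have h2 := hminy x (mem_filter.2 ⟨hx.1, h1⟩)
    have := hx.2
    omega
  · rintro z hz ⟨h1, h2⟩
    have h3 : H z.1 z.2 ≤ H x.1 x.2 := hmaxx z (mem_filter.2 ⟨hz, h2⟩)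
    omega

/-- two of five classes contain the end points of gaps which recur along narrow progressions -/
theorem consecN (hC : S_CLS) : ∃ K : ℕ, 1 ≤ K ∧ ∀ q a : ℕ, Squarefree q → a.Coprime q →
    ∀ H : Fin 5 → Fin K → ℕ, AdmN q H →
      ∃ g g' i i', g ≠ g' ∧ H g i < H g' i' ∧ H g' i' - H g i ∈ GapN q a := by
  classical
  obtain ⟨K, hK, h⟩ := hC 5 (by norm_num)
  refine ⟨K, hK, fun q a hq ha H hH => ?_⟩
  obtain ⟨P, hP, hnap⟩ := h q a hq ha H hH
  obtain ⟨x, hx, y, hy, hxy, hlt, hadj⟩ := adj H hH.1 P (by omega)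
  refine ⟨x.1, y.1, x.2, y.2, hxy, hlt, ?_⟩
  have hq0 : 0 < q := Nat.pos_of_ne_zero (by rintro rfl; exact not_squarefree_zero hq)
  obtain ⟨m, hm⟩ : ∃ m, H y.1 y.2 = H x.1 x.2 + m := ⟨H y.1 y.2 - H x.1 x.2, by omega⟩
  have hm' : H y.1 y.2 - H x.1 x.2 = m := by omega
  rw [hm']
  apply gapN_of_nap (x := q * H x.1 x.2)
  refine NAP_mono ?_ (hnap (q * H y.1 y.2))
  rintro n ⟨hn, hna⟩
  have hqx : q * H x.1 x.2 ≤ q * H y.1 y.2 := Nat.mul_le_mul_left _ hlt.le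
  have hmem : ∀ z ∈ P, H z.1 z.2 ≤ H y.1 y.2 → (n + q * H z.1 z.2).Prime := by
    intro z hz hzy
    have h1 : q * H z.1 z.2 ≤ q * H y.1 y.2 := Nat.mul_le_mul_left _ hzy
    have h2 := (hn ((q * H z.1 z.2 : ℕ) : ℤ) (by
      rw [abs_of_nonneg (by positivity)]; exact_mod_cast h1)).2 ⟨z, hz, rfl⟩
    have h3 : ((n : ℤ) + ((q * H z.1 z.2 : ℕ) : ℤ)).toNat = n + q * H z.1 z.2 := by
      rw [← Nat.cast_add, Int.toNat_natCast]
    rwa [h3] at h2
  refine ⟨?_, hmem x hx hlt.le, ?_, ?_⟩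
  · have h1 : n + q * H x.1 x.2 ≡ n [MOD q] := by simp [Nat.ModEq]
    exact h1.trans hna
  · have h1 := hmem y hy le_rfl
    have e : n + q * H x.1 x.2 + q * m = n + q * H y.1 y.2 := by rw [hm]; ring
    rwa [e]
  · intro r hr1 hr2 hrp
    have e : n + q * H x.1 x.2 + q * m = n + q * H y.1 y.2 := by rw [hm]; ring
    rw [e] at hr2
    obtain ⟨t, rfl⟩ : ∃ t, r = n + t := ⟨r - n, by omega⟩
    have ht1 : q * H x.1 x.2 < t := by omega
    have ht2 : t < q * H y.1 y.2 := by omega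
    have h2 := (hn (t : ℤ) (by rw [abs_of_nonneg (by positivity)]; exact_mod_cast ht2.le)).1 (by
      rw [← Nat.cast_add, Int.toNat_natCast]
      exact hrp)
    obtain ⟨z, hz, hzt⟩ := h2
    have hzt' : t = q * H z.1 z.2 := by exact_mod_cast hzt
    refine hadj z hz ⟨?_, ?_⟩
    · rw [hzt'] at ht1
      exact Nat.lt_of_mul_lt_mul_left ht1
    · rw [hzt'] at ht2
      exact Nat.lt_of_mul_lt_mul_left ht2

/-- two fifths of the multiples of every sufficiently divisible number -/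
theorem nf (hC : S_CLS) (q a : ℕ) (hq : Squarefree q) (ha : a.Coprime q) (ε : ℝ) (hε : 0 < ε) :
    ∃ M : ℕ, 0 < M ∧ ∀ N : ℕ, 0 < N → M ∣ N → ∃ L : ℕ, ∀ T : ℕ, L ≤ T → ∀ u : ℕ,
      (2 / 5 - ε) * T ≤ ({k : ℕ | u < k ∧ k ≤ u + T ∧ N * k ∈ GapN q a}.ncard : ℝ) := by
  classical
  obtain ⟨K, hK, hcon'⟩ := consecN hC
  have hcon := hcon' q a hq ha
  refine windows (GapN q a) (5 * K).factorial (Nat.factorial_pos _) (2 / 5) ε fun hall => ?_
  obtain ⟨Q, A, hQ, hinj, hcr⟩ := s_maiF {k : ℤ | (((5 * K).factorial : ℕ) : ℤ) * k ∈ Cpl (GapN q a)} ε hε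
    (fun M hM => by
      obtain ⟨Q, h1, h2, h3⟩ := hall M hM
      refine ⟨Q, h1, h2, fun L₀ => ?_⟩
      obtain ⟨L, hL, u, hu⟩ := h3 L₀
      refine ⟨L, hL, u, le_trans (le_of_eq ?_) hu⟩
      norm_num) K
  obtain ⟨H, C, hH⟩ := points 5 K (5 * K).factorial Q A
  have hadm : AdmN q H := admN_of (Nat.factorial_pos _) (fun p hp hle => Nat.dvd_factorial hp.pos hle) Q A hQ hinj
    (fun i j hij hj k k' hk hk' h0 => by
      have h := hcr i j hij hj k k' hk hk'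
      rw [h0] at h
      exact h.1 (mul_zero _)) H C hH
  obtain ⟨g, g', i, i', hne, hlt, hG⟩ := hcon H hadm
  rcases lt_or_gt_of_ne hne with h | h
  · have := not_Cpl C (hH g' i') (hH g i) (hcr g g' h g'.2 i' i i'.2 i.2)
    exact this.2.2 hlt hG
  · have := not_Cpl C (hH g i) (hH g' i') (hcr g' g h g.2 i i' i.2 i'.2)
    exact this.2.1 hlt hG

end Pool.Agent.Y520.NP
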