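import Pool.Agent.Y291.NP.BLK
import Pool.Agent.H362R2.QT.FAM
import Pool.Agent.Y520.NP.Gap

/-!
# Project NP (helper520): the sharp form of the sieve weights for blocks

Adapted from `Pool.Agent.Y291.NP.BLK` (helper291).
-/

set_option autoImplicit false

open Finset Filter Topology
open scoped ContDiff

namespace Pool.Agent.Y520.NP

open Pool.Agent.H378R2 Pool.Agent.H387R2 Pool.Agent.H387R2.MB Pool.Agent.H362R2.QT
open Pool.Agent.Y291.NP (mass QQ_fix BE_tot nu_supp nu_le_one sqw_rough cnd_fix card_block)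

/-- the numerical inequality -/
lemma numer' {V M0 η e0 x K ε S a b : ℝ} (hV : 0 < V) (hVM : V ≤ M0) (hx : M0 ≤ x) (hK : 1 ≤ K)
    (hS : 0 < S) (_hη0 : 0 ≤ η) (hη1 : η ≤ 1) (he0 : 0 ≤ e0) (hεS : K ^ 2 * ε ≤ e0 * S) (hε : 0 ≤ ε)
    (ha : ((1 - η) * x * S - K * ε) / (200 * S) ≤ a)
    (hb : b ≤ (x ^ 2 * S / V + K ^ 2 * ε) / (200 * S)) :
    V / 200 * ((2 - V / M0) * (1 - η) - 1) - 3 * e0 / 200 ≤
      (2 * (V / x) - (V / x) ^ 2) * a - (V / x) ^ 2 * b := by
  have hM0 : 0 < M0 := by linarith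
  have hx0 : 0 < x := by linarith
  obtain ⟨l, hl⟩ : ∃ l : ℝ, l = V / x := ⟨_, rfl⟩
  rw [← hl]
  have hl0 : 0 < l := by rw [hl]; positivity
  have hlx : l * x = V := by rw [hl]; field_simp
  have hl1 : l ≤ V / M0 := by
    rw [hl]
    exact div_le_div_of_nonneg_left hV.le hM0 hx
  have hVM1 : V / M0 ≤ 1 := by rwa [div_le_one hM0]
  have hl2 : l ≤ 1 := hl1.trans hVM1
  have h1 : ((1 - η) * x - e0) / 200 ≤ a := by
    refine le_trans ?_ ha
    rw [div_le_div_iff₀ (by norm_num) (by positivity)]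
    have h2 : K * ε ≤ e0 * S := by
      refine le_trans ?_ hεS
      have : K * ε ≤ K ^ 2 * ε := by
        apply mul_le_mul_of_nonneg_right _ hε
        nlinarith
      exact this
    nlinarith
  have h2 : b ≤ (x ^ 2 / V + e0) / 200 := by
    refine hb.trans ?_
    rw [div_le_div_iff₀ (by positivity) (by norm_num)]
    have e1 : x ^ 2 * S / V = x ^ 2 / V * S := by ring
    rw [e1]
    nlinarith
  have h3 : 0 ≤ 2 * l - l ^ 2 := by nlinarith
  have h4 : (2 * l - l ^ 2) * (((1 - η) * x - e0) / 200) ≤ (2 * l - l ^ 2) * a :=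
    mul_le_mul_of_nonneg_left h1 h3
  have h5 : l ^ 2 * b ≤ l ^ 2 * ((x ^ 2 / V + e0) / 200) := mul_le_mul_of_nonneg_left h2 (sq_nonneg _)
  have h6 : (2 * l - l ^ 2) * (((1 - η) * x - e0) / 200) =
      ((2 - l) * (1 - η) * (l * x) - (2 * l - l ^ 2) * e0) / 200 := by ring
  have h7 : l ^ 2 * ((x ^ 2 / V + e0) / 200) = ((l * x) ^ 2 / V + l ^ 2 * e0) / 200 := by ring
  have h8 : (l * x) ^ 2 / V = V := by rw [hlx]; field_simp
  rw [h6, hlx] at h4
  rw [h7, h8] at h5
  have h9 : (2 - V / M0) * (1 - η) ≤ (2 - l) * (1 - η) := by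
    apply mul_le_mul_of_nonneg_right _ (by linarith)
    linarith
  have h10 : V * ((2 - V / M0) * (1 - η)) ≤ V * ((2 - l) * (1 - η)) := mul_le_mul_of_nonneg_left h9 hV.le
  have h11 : l * e0 ≤ 1 * e0 := mul_le_mul_of_nonneg_right hl2 he0
  nlinarith

/-- the general lemma: sieve weights for blocks of coordinates from a family of test functions -/
theorem blkcore {K0 B : ℕ} (f : Fin B → ℝ → ℝ) (c : Fin B → ℝ) (A : Finset (Fin (K0 + 1) → Fin B))
    (S V ρ M0 η e0 : ℝ) (J : ℕ) (blk : ℕ → Finset ℕ) (x : ℕ → ℝ)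
    (hsm : ∀ l, ContDiff ℝ ∞ (f l)) (hcs : ∀ l, HasCompactSupport (f l))
    (hf0 : ∀ l y, c l < y → f l y = 0) (hc : ∀ l, 0 ≤ c l ∧ c l ≤ 1 / 2)
    (hAρ : ∀ a ∈ A, ∑ j, c (a j) ≤ ρ) (hf1 : ∀ l y, |f l y| ≤ 1)
    (hII0 : 0 < II f A) (hIIS : II f A ≤ S) (hρ0 : 0 ≤ ρ) (hρ1 : ρ ≤ 1) (hV : 0 < V) (hVρ : V + ρ < 50)
    (hVM : V ≤ M0) (hη0 : 0 ≤ η) (hη1 : η ≤ 1) (he0 : 0 < e0)
    (hx : ∀ s < J, M0 ≤ x s ∧ (blk s).Nonempty ∧ blk s ⊆ range (K0 + 1) ∧
      ∀ i : Fin (K0 + 1), (i : ℕ) ∈ blk s →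
        (1 - η) * x s * S ≤ ((blk s).card : ℝ) * JJ f A i ∧
        ∀ j0 : Fin K0, (i.succAbove j0 : ℕ) ∈ blk s →
          ((blk s).card : ℝ) ^ 2 * JJ2 f A i j0 ≤ x s ^ 2 * S) :
    BLKg (K0 + 1) J blk (1 + e0) (V / 200 * ((2 - V / M0) * (1 - η) - 1) - 3 * e0 / 200) := by
  classical
  have hA : ∀ a ∈ A, ∑ j, c (a j) ≤ 1 := fun a ha => (hAρ a ha).trans hρ1
  have hS0 : 0 < S := hII0.trans_le hIIS
  obtain ⟨KK, hKK⟩ : ∃ KK : ℝ, KK = (K0 : ℝ) + 1 := ⟨_, rfl⟩
  have hKK1 : 1 ≤ KK := by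
    rw [hKK]
    have : (0:ℝ) ≤ K0 := Nat.cast_nonneg _
    linarith
  obtain ⟨ε, hεdef⟩ : ∃ ε : ℝ, ε = e0 * S / KK ^ 2 := ⟨_, rfl⟩
  have hε : 0 < ε := by rw [hεdef]; positivity
  have hεK : KK ^ 2 * ε = e0 * S := by rw [hεdef]; field_simp
  have hεS : ε ≤ e0 * S := by
    rw [← hεK]
    exact le_mul_of_one_le_left hε.le (one_le_pow₀ hKK1)
  obtain ⟨C, hC0, z3, hnr⟩ := nonrough f c A hsm hcs hf0 hc hA hf1 hII0.le
  obtain ⟨θ1, hθ1, z1, hone⟩ := ONE f c A hsm hcs hf0 hc hA hf1 ε hε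
  obtain ⟨θ2, hθ2, z2, hpair⟩ := PAIR prg_holds RAMP BV f c A V ρ hsm hcs hf0 hc hAρ hf1 hV
    hρ0 hρ1 hVρ ε hε
  obtain ⟨z4, htot⟩ := TOT f c A hsm hcs hf0 hc hA hf1 ε hε
  obtain ⟨z, hz⟩ : ∃ z : ℕ, z = max z1 (max z2 (max z3 z4)) := ⟨_, rfl⟩
  have hz1 : z1 ≤ z := by rw [hz]; exact le_max_left _ _
  have hz2 : z2 ≤ z := by rw [hz]; exact (le_max_left _ _).trans (le_max_right _ _)
  have hz3 : z3 ≤ z := by rw [hz]; exact (le_max_left _ _).trans ((le_max_right _ _).trans (le_max_right _ _))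
  have hz4 : z4 ≤ z := by rw [hz]; exact (le_max_right _ _).trans ((le_max_right _ _).trans (le_max_right _ _))
  refine ⟨z, ?_⟩
  intro W a0 t hstd
  obtain ⟨hW, hWsq, hWz, hdiff, hcop⟩ := hstd
  obtain ⟨E, hE⟩ : ∃ E : Finset ℕ, E = W.primeFactors := ⟨_, rfl⟩
  obtain ⟨tt, htt⟩ : ∃ tt : Fin (K0 + 1) → ℕ, tt = fun j : Fin (K0 + 1) => t j := ⟨_, rfl⟩
  have htt' : ∀ j, tt j = t j := fun j => by rw [htt]
  have hEp : ∀ p ∈ E, p.Prime := fun p hp => by
    rw [hE] at hp
    exact Nat.prime_of_mem_primeFactors hp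
  have hcnd : ∀ᶠ X : ℝ in atTop, ∀ (θ : ℝ) (z' : ℕ), 0 ≤ θ → z' ≤ z → Cnd θ X z' W E a0 tt := by
    rw [hE]
    apply cnd_fix z W a0 tt hW hWsq hWz
    · intro i j hij p hp hpd
      rw [htt', htt'] at hpd
      exact hdiff i (by omega) j (by omega) (fun h => hij (Fin.ext h)) p hp hpd
    · intro i
      rw [htt']
      exact hcop i (by omega)
  obtain ⟨mu, hmu⟩ : ∃ mu : ℝ → ℕ → ℝ, mu = fun X n =>
      nu X W a0 n * sqw E X f A (fun j => (n : ℤ) + tt j) ^ 2 / (S * QQ (K0 + 1) X W E) := ⟨_, rfl⟩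
  have hmu' : ∀ X n, mu X n =
      nu X W a0 n * sqw E X f A (fun j => (n : ℤ) + tt j) ^ 2 / (S * QQ (K0 + 1) X W E) := fun X n => by
    rw [hmu]
  refine ⟨mu, ?_, ?_⟩
  · filter_upwards [hcnd, hone, hpair, htot, eventually_ge_atTop 40, LL_tendsto.eventually_ge_atTop 1,
      Real.tendsto_log_atTop.eventually_gt_atTop 0] with X hC h1 h2 h3 h5 h6 h7
    have hX0 : 0 < X := by linarith
    have hW0 : (0:ℝ) < W := by exact_mod_cast hW
    obtain ⟨Q, hQ⟩ : ∃ Q : ℝ, Q = QQ (K0 + 1) X W E := ⟨_, rfl⟩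
    have hQ0 : 0 < Q := by
      rw [hQ]
      exact lt_of_lt_of_le (by positivity) (QQ_fix (K0 + 1) h5 h6 hW hEp)
    have hSQ : 0 < S * Q := by positivity
    have hm : ∀ n, mu X n = nu X W a0 n * sqw E X f A (fun j => (n : ℤ) + tt j) ^ 2 / (S * Q) := fun n => by
      rw [hmu', hQ]
    have hμ0 : ∀ n, 0 ≤ mu X n := fun n => by
      rw [hm]
      exact div_nonneg (mul_nonneg (nu_nonneg _ _ _ _) (sq_nonneg _)) hSQ.le
    refine ⟨hμ0, ?_, ?_, ?_⟩
    · intro n hn
      apply nu_supp hX0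
      intro h0
      apply hn
      rw [hm, h0, zero_mul, zero_div]
    · have s3 := h3 1 W E a0 tt (hC 1 z4 zero_le_one hz4)
      rw [← hQ] at s3
      have e1 : ∑ n ∈ Icc 1 ⌊3 * X⌋₊, mu X n =
          (∑ n ∈ Icc 1 ⌊3 * X⌋₊, nu X W a0 n * sqw E X f A (fun j => (n : ℤ) + tt j) ^ 2) / (S * Q) := by
        rw [sum_div]
        exact sum_congr rfl fun n _ => hm n
      rw [e1, div_le_iff₀ hSQ]
      refine s3.trans ?_
      rw [← mul_assoc]
      apply mul_le_mul_of_nonneg_right _ hQ0.le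
      linarith
    · intro s hs
      obtain ⟨hx1, hne, hsub, hx2⟩ := hx s hs
      obtain ⟨bl, hbl⟩ : ∃ bl : Finset (Fin (K0 + 1)), bl =
        (univ : Finset (Fin (K0 + 1))).filter (fun i : Fin (K0 + 1) => (i : ℕ) ∈ blk s) := ⟨_, rfl⟩
      have hmem : ∀ i, i ∈ bl ↔ (i : ℕ) ∈ blk s := fun i => by
        rw [hbl, mem_filter]
        exact ⟨fun h => h.2, fun h => ⟨mem_univ _, h⟩⟩
      have hmapc : bl.map Fin.valEmbedding = blk s := by
        ext n
        rw [Finset.mem_map]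
        constructor
        · rintro ⟨i, hi, rfl⟩
          exact (hmem i).1 hi
        · intro hn
          exact ⟨⟨n, mem_range.1 (hsub hn)⟩, (hmem _).2 hn, rfl⟩
      have hcard0 : bl.card = (blk s).card := by
        rw [← hmapc, card_map]
      have hcard : (bl.card : ℝ) = ((blk s).card : ℝ) := by rw [hcard0]
      obtain ⟨Ks, hKs⟩ : ∃ Ks : ℝ, Ks = ((blk s).card : ℝ) := ⟨_, rfl⟩
      rw [← hKs] at hcard
      have hKs1 : 1 ≤ Ks := by
        rw [hKs]
        exact_mod_cast hne.card_pos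
      have hKsK : Ks ≤ KK := by
        rw [hKs, hKK]
        have h8 := card_le_card hsub
        rw [card_range] at h8
        exact_mod_cast h8
      have hKs0 : 0 < Ks := by linarith
      have hKε : Ks ^ 2 * ε ≤ e0 * S := by
        rw [← hεK]
        gcongr
      have hone' : ∀ i ∈ bl, ((1 - η) * x s * S / Ks - ε) / (200 * S) ≤
          ∑ n ∈ Icc 1 ⌊3 * X⌋₊, mu X n * (if (n + tt i).Prime then 1 else 0) := by
        intro i hi
        have s1 := h1 W E a0 tt (hC θ1 z1 hθ1.le hz1) i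
        rw [← hQ] at s1
        have e1 : ∑ n ∈ Icc 1 ⌊3 * X⌋₊, mu X n * (if (n + tt i).Prime then 1 else 0) =
            (∑ n ∈ Icc 1 ⌊3 * X⌋₊, nu X W a0 n *
              (if (n + tt i).Prime then sqw E X f A (fun j => (n : ℤ) + tt j) ^ 2 else 0)) / (S * Q) := by
          rw [sum_div]
          apply sum_congr rfl
          intro n _
          rw [hm]
          split_ifs
          · rw [mul_one]
          · rw [mul_zero, mul_zero, zero_div]
        rw [e1]
        have h8 : (1 - η) * x s * S / Ks ≤ JJ f A i := by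
          rw [div_le_iff₀ hKs0]
          have := (hx2 i ((hmem i).1 hi)).1
          rw [← hKs] at this
          linarith
        calc ((1 - η) * x s * S / Ks - ε) / (200 * S) ≤ (JJ f A i - ε) / (200 * S) := by gcongr
          _ = ((JJ f A i - ε) / 200 * Q) / (S * Q) := by field_simp
          _ ≤ _ := by gcongr
      have hpair' : ∀ i ∈ bl, ∀ j ∈ bl.erase i,
          ∑ n ∈ Icc 1 ⌊3 * X⌋₊, mu X n * ((if (n + tt i).Prime then 1 else 0) * (if (n + tt j).Prime then 1 else 0)) ≤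
          (x s ^ 2 * S / Ks ^ 2 / V + ε) / (200 * S) := by
        intro i hi j hj
        rw [mem_erase] at hj
        obtain ⟨j0, hj0⟩ := Fin.exists_succAbove_eq hj.1
        have s2 := h2 W E a0 tt (hC θ2 z2 hθ2.le hz2) i j0
        rw [← hQ, hj0] at s2
        have e1 : ∑ n ∈ Icc 1 ⌊3 * X⌋₊, mu X n * ((if (n + tt i).Prime then 1 else 0) * (if (n + tt j).Prime then 1 else 0)) =
            (∑ n ∈ Icc 1 ⌊3 * X⌋₊, nu X W a0 n *
              (if (n + tt i).Prime ∧ (n + tt j).Prime then sqw E X f A (fun j => (n : ℤ) + tt j) ^ 2 else 0)) / (S * Q) := by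
          rw [sum_div]
          apply sum_congr rfl
          intro n _
          rw [hm]
          by_cases h9 : (n + tt i).Prime
          · by_cases h10 : (n + tt j).Prime
            · rw [if_pos h9, if_pos h10, if_pos ⟨h9, h10⟩, mul_one, mul_one]
            · rw [if_neg h10, mul_zero, mul_zero, if_neg (show ¬ ((n + tt i).Prime ∧ (n + tt j).Prime) from
                fun h => h10 h.2), mul_zero, zero_div]
          · rw [if_neg h9, zero_mul, mul_zero, if_neg (show ¬ ((n + tt i).Prime ∧ (n + tt j).Prime) from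
                fun h => h9 h.1), mul_zero, zero_div]
        rw [e1]
        have h8 : JJ2 f A i j0 ≤ x s ^ 2 * S / Ks ^ 2 := by
          rw [le_div_iff₀ (by positivity)]
          have h9 := (hx2 i ((hmem i).1 hi)).2 j0
          rw [hj0, ← hKs] at h9
          have h10 := h9 ((hmem j).1 hj.2)
          linarith
        calc _ ≤ ((JJ2 f A i j0 / V + ε) / 200 * Q) / (S * Q) := by gcongr
          _ = (JJ2 f A i j0 / V + ε) / (200 * S) := by field_simp
          _ ≤ _ := by gcongr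
      have hmass := mass (Icc 1 ⌊3 * X⌋₊) (mu X) hμ0 bl (fun n i => (n + tt i).Prime)
        ((Icc 1 ⌊3 * X⌋₊).filter (fun n => ∃ i ∈ blk s, (n + t i).Prime))
        (filter_subset _ _) (by
          intro n hn i hi hp
          rw [mem_filter]
          rw [htt'] at hp
          exact ⟨hn, i, (hmem i).1 hi, hp⟩) (V / x s)
      refine le_trans ?_ hmass
      apply numer' (K := Ks) (ε := ε) (S := S) hV hVM hx1 hKs1 hS0 hη0 hη1 he0.le hKε hε.le
      · refine le_trans (le_of_eq ?_) (card_nsmul_le_sum bl _ _ hone')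
        rw [nsmul_eq_mul, hcard]
        field_simp
      · have hbd : 0 ≤ (x s ^ 2 * S / Ks ^ 2 / V + ε) / (200 * S) := by positivity
        have h8 : ∀ i ∈ bl, ∑ j ∈ bl.erase i, ∑ n ∈ Icc 1 ⌊3 * X⌋₊,
            mu X n * ((if (n + tt i).Prime then 1 else 0) * (if (n + tt j).Prime then 1 else 0)) ≤
            Ks * ((x s ^ 2 * S / Ks ^ 2 / V + ε) / (200 * S)) := by
          intro i hi
          refine (sum_le_card_nsmul _ _ _ (hpair' i hi)).trans ?_
          rw [nsmul_eq_mul]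
          apply mul_le_mul_of_nonneg_right _ hbd
          rw [← hcard]
          exact_mod_cast card_le_card (erase_subset _ _)
        refine (sum_le_card_nsmul _ _ _ h8).trans (le_of_eq ?_)
        rw [nsmul_eq_mul, hcard]
        field_simp
  · intro β hβ
    obtain ⟨δ, hδ⟩ : ∃ δ : ℝ, δ = min (1 / 10) (β * S / (C + 1)) := ⟨_, rfl⟩
    have hδ0 : 0 < δ := by
      rw [hδ]
      exact lt_min (by norm_num) (by positivity)
    have hδ1 : δ ≤ 1 / 10 := by rw [hδ]; exact min_le_left _ _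
    have hδC : C * δ ≤ β * S := by
      have h1 : δ ≤ β * S / (C + 1) := by rw [hδ]; exact min_le_right _ _
      rw [le_div_iff₀ (by linarith)] at h1
      nlinarith
    obtain ⟨Wb, hWb⟩ : ∃ Wb : ℝ, Wb = ((A.card : ℝ) * (2 ^ ⌈400 / δ⌉₊) ^ (K0 + 1)) ^ 2 + 1 := ⟨_, rfl⟩
    have hWb0 : 0 < Wb := by rw [hWb]; positivity
    have hW0 : (0:ℝ) < W := by exact_mod_cast hW
    refine ⟨δ / 200, Wb * (20 * W) / S, by positivity, by positivity, ?_⟩
    filter_upwards [hcnd, hnr δ hδ0 hδ1, eventually_ge_atTop 40, LL_tendsto.eventually_ge_atTop 1,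
      Real.tendsto_log_atTop.eventually_gt_atTop 0] with X hC h4 h5 h6 h7
    have hX0 : 0 < X := by linarith
    obtain ⟨Q, hQ⟩ : ∃ Q : ℝ, Q = QQ (K0 + 1) X W E := ⟨_, rfl⟩
    have hQfix := QQ_fix (K0 + 1) h5 h6 hW hEp
    have hQ0 : 0 < Q := by
      rw [hQ]
      exact lt_of_lt_of_le (by positivity) hQfix
    rw [← hQ] at hQfix
    have hSQ : 0 < S * Q := by positivity
    have hm : ∀ n, mu X n = nu X W a0 n * sqw E X f A (fun j => (n : ℤ) + tt j) ^ 2 / (S * Q) := fun n => by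
      rw [hmu', hQ]
    have hpow : X ^ (δ / 200) = Real.exp (δ * LL X) := by
      rw [Real.rpow_def_of_pos hX0]
      congr 1
      unfold LL
      ring
    have hR : ∀ n : ℕ, (∀ i < K0 + 1, ∀ p : ℕ, p.Prime → p ∣ n + t i → X ^ (δ / 200) < p) ↔
        ∀ j, Rg δ X (n + tt j) := by
      intro n
      constructor
      · intro h8 j p hp hpd
        rw [mem_PS] at hp
        rw [htt'] at hpd
        have h9 := h8 j (by omega) p hp.1 hpd
        rw [hpow] at h9
        linarith [hp.2]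
      · intro h8 i hi p hp hpd
        rw [hpow]
        have h9 := h8 ⟨i, by omega⟩
        rw [htt'] at h9
        exact rg_prime h9 hp hpd
    constructor
    · have hcn := hC 0 z3 le_rfl hz3
      have s5 := h4 W E a0 tt hcn.cs hcn.dt hcn.cp (hcn.sm.trans hδ0.le)
      have s6 : ∑ n ∈ (Icc 1 ⌊3 * X⌋₊).filter
          (fun n => ¬ ∀ i < K0 + 1, ∀ p : ℕ, p.Prime → p ∣ n + t i → X ^ (δ / 200) < p), mu X n ≤
          (∑ n ∈ Icc 1 ⌊3 * X⌋₊, ∑ j : Fin (K0 + 1), ∑ p ∈ PS δ X,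
            nu X W a0 n * (if (p : ℤ) ∣ (n : ℤ) + tt j then sqw E X f A (fun j => (n : ℤ) + tt j) ^ 2 else 0)) /
            (S * Q) := by
        rw [sum_filter, sum_div]
        apply sum_le_sum
        intro n _
        have hterm : ∀ (j : Fin (K0 + 1)) (p : ℕ), 0 ≤ nu X W a0 n *
            (if (p : ℤ) ∣ (n : ℤ) + tt j then sqw E X f A (fun j => (n : ℤ) + tt j) ^ 2 else 0) := by
          intro j p
          apply mul_nonneg (nu_nonneg _ _ _ _)
          split_ifs
          · exact sq_nonneg _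
          · exact le_rfl
        have hnn : 0 ≤ ∑ j : Fin (K0 + 1), ∑ p ∈ PS δ X,
            nu X W a0 n * (if (p : ℤ) ∣ (n : ℤ) + tt j then sqw E X f A (fun j => (n : ℤ) + tt j) ^ 2 else 0) :=
          sum_nonneg fun j _ => sum_nonneg fun p _ => hterm j p
        by_cases h8 : ∀ j, Rg δ X (n + tt j)
        · rw [if_neg (not_not.2 ((hR n).2 h8))]
          exact div_nonneg hnn hSQ.le
        · rw [if_pos (fun h => h8 ((hR n).1 h))]
          unfold Rg at h8
          push Not at h8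
          obtain ⟨j, p, hp, hpd⟩ := h8
          rw [hm]
          apply div_le_div_of_nonneg_right _ hSQ.le
          have e1 : nu X W a0 n * sqw E X f A (fun j => (n : ℤ) + tt j) ^ 2 =
              nu X W a0 n * (if (p : ℤ) ∣ (n : ℤ) + tt j then sqw E X f A (fun j => (n : ℤ) + tt j) ^ 2 else 0) := by
            rw [if_pos]
            have e : ((n + tt j : ℕ) : ℤ) = (n : ℤ) + tt j := by push_cast; ring
            rw [← e]
            exact Int.natCast_dvd_natCast.2 hpd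
          rw [e1]
          refine le_trans (single_le_sum
            (f := fun p : ℕ => nu X W a0 n *
              (if (p : ℤ) ∣ (n : ℤ) + tt j then sqw E X f A (fun j => (n : ℤ) + tt j) ^ 2 else 0))
            (fun p _ => hterm j p) hp) ?_
          exact single_le_sum (f := fun j => ∑ p ∈ PS δ X,
            nu X W a0 n * (if (p : ℤ) ∣ (n : ℤ) + tt j then sqw E X f A (fun j => (n : ℤ) + tt j) ^ 2 else 0))
            (fun j _ => sum_nonneg fun p _ => hterm j p) (mem_univ j)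
      refine s6.trans ?_
      rw [div_le_iff₀ hSQ]
      refine s5.trans ?_
      have e2 : MPhi X * (1 / (W : ℝ)) * (1 / (LL X * BE E) ^ (K0 + 1)) = Q := by
        rw [hQ]
        rfl
      rw [e2]
      nlinarith
    · intro n hn
      rw [hR] at hn
      have hlogp : 0 < Real.log X ^ (K0 + 1) := by positivity
      by_cases hnu : nu X W a0 n = 0
      · rw [hm, hnu, zero_mul, zero_div]
        positivity
      · obtain ⟨h8, h9, _⟩ := nu_supp hX0 hnu
        have hn1 : 1 ≤ n := by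
          have : (0:ℝ) < n := by linarith
          exact_mod_cast this
        have hb := sqw_rough hδ0 (by linarith) h6 E f A hf1 tt n hn1 h9 (hC 0 z3 le_rfl hz3).tl hn
        have hnum : nu X W a0 n * sqw E X f A (fun j => (n : ℤ) + tt j) ^ 2 ≤ Wb := by
          calc _ ≤ 1 * sqw E X f A (fun j => (n : ℤ) + tt j) ^ 2 :=
                mul_le_mul_of_nonneg_right (nu_le_one _ _ _ _) (sq_nonneg _)
            _ ≤ Wb := by rw [hWb]; linarith
        rw [hm]
        calc _ ≤ Wb / (S * Q) := by gcongr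
          _ ≤ Wb / (S * (X / (20 * W * Real.log X ^ (K0 + 1)))) := by gcongr
          _ = _ := by field_simp

theorem BLKg_mono {K J : ℕ} {blk : ℕ → Finset ℕ} {tot tot' c c' : ℝ} (h : BLKg K J blk tot c)
    (ht : tot ≤ tot') (hc : c' ≤ c) : BLKg K J blk tot' c' := by
  obtain ⟨z, hz⟩ := h
  refine ⟨z, fun W a0 t hstd => ?_⟩
  obtain ⟨mu, h1, h2⟩ := hz W a0 t hstd
  refine ⟨mu, ?_, h2⟩
  filter_upwards [h1] with X hX
  exact ⟨hX.1, hX.2.1, hX.2.2.1.trans ht, fun s hs => hc.trans (hX.2.2.2 s hs)⟩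

/-- the sharp sieve weights: `T` blocks, total mass `1 + ε`, block masses `1/4 - ε` -/
theorem sh : S_SH := by
  intro T ε hT hε
  obtain ⟨e, he⟩ : ∃ e : ℝ, e = min ε 1 := ⟨_, rfl⟩
  have he0 : 0 < e := by rw [he]; exact lt_min hε one_pos
  have he1 : e ≤ 1 := by rw [he]; exact min_le_right _ _
  have heε : e ≤ ε := by rw [he]; exact min_le_left _ _
  obtain ⟨K', K0, B, f, c, A, s, b, hTK, -, hs, hb, hsm, hcs, hf0, hc, hA, hf1, hII0, hII, hJ, hJ2, hM⟩ :=
    FAM T (e / 10) (2500 / e) (e / 2) hT (by positivity) (by linarith) (by positivity) (by linarith)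
  have hK' : 1 ≤ K' := by
    rcases Nat.eq_zero_or_pos K' with h | h
    · rw [h] at hTK; omega
    · exact h
  refine ⟨K', hK', ?_⟩
  rw [hTK]
  have hM0 : 0 < 2500 / e := by positivity
  have h50 : (50 : ℝ) - e ≤ 2500 / e := by
    rw [le_div_iff₀ he0]
    nlinarith
  have hcard : ∀ u : ℕ, (Ico (u * K') ((u + 1) * K')).card = K' := by
    intro u
    rw [Nat.card_Ico]
    have : (u + 1) * K' = u * K' + K' := by ring
    omega
  have hcore := blkcore f c A (s ^ (K0 + 1)) (50 - e) (e / 2) (2500 / e) (e / 10) (e / 10) T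
    (fun u => Ico (u * K') ((u + 1) * K')) (fun _ => K' * b ^ 2 / s) hsm hcs hf0 hc hA hf1 hII0 hII
    (by positivity) (by linarith) (by linarith) (by linarith) h50 (by positivity) (by linarith)
    (by positivity) ?_
  · refine BLKg_mono hcore (by linarith) ?_
    have h1 : (50 - e) / (2500 / e) ≤ e / 50 := by
      rw [div_le_iff₀ hM0]
      have : e / 50 * (2500 / e) = 50 := by field_simp; norm_num
      linarith
    have h2 : (0 : ℝ) ≤ (50 - e) / (2500 / e) := div_nonneg (by linarith) hM0.le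
    have h3 : 1 - 22 / 100 * e ≤ (2 - (50 - e) / (2500 / e)) * (1 - e / 10) - 1 := by
      nlinarith
    have h4 : (50 - e) / 200 * (1 - 22 / 100 * e) ≤
        (50 - e) / 200 * ((2 - (50 - e) / (2500 / e)) * (1 - e / 10) - 1) :=
      mul_le_mul_of_nonneg_left h3 (by linarith)
    nlinarith
  · intro u hu
    refine ⟨?_, ?_, ?_, ?_⟩
    · rw [le_div_iff₀ hs]
      exact hM
    · rw [nonempty_Ico]
      have : (u + 1) * K' = u * K' + K' := by ring
      omega
    · intro i hi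
      rw [mem_Ico] at hi
      rw [mem_range, ← hTK]
      exact hi.2.trans_le (Nat.mul_le_mul_right _ hu)
    · intro i _
      rw [hcard]
      have hK0 : (0 : ℝ) < K' := by exact_mod_cast hK'
      have hss : 0 < s ^ K0 := by positivity
      refine ⟨?_, fun j0 _ => ?_⟩
      · have h1 := hJ i
        have e1 : (1 - e / 10) * (K' * b ^ 2 / s) * s ^ (K0 + 1) =
            K' * ((1 - e / 10) * b ^ 2 * s ^ K0) := by
          field_simp
          ring
        rw [e1]
        exact mul_le_mul_of_nonneg_left h1 hK0.le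
      · have h1 := hJ2 i j0
        have e1 : (K' * b ^ 2 / s) ^ 2 * s ^ (K0 + 1) = K' ^ 2 * (b ^ 4 * s ^ K0 / s) := by
          field_simp
          ring
        rw [e1]
        apply mul_le_mul_of_nonneg_left _ (by positivity)
        rw [le_div_iff₀ hs]
        exact h1

theorem cls_holds (hN : S_NAR) : S_CLS := cls sh hN

end Pool.Agent.Y520.NP
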