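import Pool.Agent.Y520.NP.Shp
import Pool.Agent.H312R2.PG.Comb

/-!
# Project NP (helper520): blocks of consecutive primes along narrow progressions, in any set of shifts
-/

set_option autoImplicit false

open Finset Filter Topology

namespace Pool.Agent.Y520.NP

open Pool.Agent.H947R3.GM (AdmN)
open Pool.Agent.H312R2.PG (turan_avg choose_lower)

/-- the primes between `m + q min P` and `m + q max P` are exactly the `m + q y`, `y ∈ P` -/
def Blk (q : ℕ) (P : Finset ℕ) (m : ℕ) : Prop := ∀ t : ℕ, (∃ u ∈ P, q * u ≤ t) → (∃ v ∈ P, t ≤ q * v) →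
  ((m + t).Prime ↔ ∃ y ∈ P, t = q * y)

/-- `P` is the pattern of blocks of consecutive primes along narrow progressions -/
def NBlk (q a : ℕ) (P : Finset ℕ) : Prop := ∀ l : ℕ, ∃ C : ℕ, ∀ x₀ : ℕ, ∃ n d : ℕ, x₀ ≤ n ∧ 1 ≤ d ∧
  (d : ℝ) ≤ Real.log n ^ C ∧ ∀ j < l, n + j * d ≡ a [MOD q] ∧ Blk q P (n + j * d)

/-- the `m` smallest elements of a finite set -/
theorem init_seg (S : Finset ℕ) (m : ℕ) (h : m ≤ S.card) :
    ∃ P ⊆ S, P.card = m ∧ ∀ x ∈ P, ∀ y ∈ S, y ≤ x → y ∈ P := by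
  classical
  induction m with
  | zero => exact ⟨∅, empty_subset _, card_empty, fun x hx => absurd hx (notMem_empty _)⟩
  | succ m ih =>
    obtain ⟨P, hPS, hPc, hP⟩ := ih (by omega)
    have hne : (S \ P).Nonempty := by
      rw [← card_pos, card_sdiff_of_subset hPS]
      omega
    obtain ⟨z, hz, hmin⟩ := (S \ P).exists_min_image (fun x => x) hne
    rw [Finset.mem_sdiff] at hz
    refine ⟨insert z P, insert_subset hz.1 hPS, ?_, ?_⟩
    · rw [card_insert_of_notMem hz.2, hPc]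
    · intro x hx y hy hyx
      by_cases hyP : y ∈ P
      · exact mem_insert_of_mem hyP
      · rcases mem_insert.1 hx with rfl | hxP
        · have h1 : x ≤ y := hmin y (Finset.mem_sdiff.2 ⟨hy, hyP⟩)
          have : y = x := le_antisymm hyx h1
          rw [this]
          exact mem_insert_self _ _
        · exact absurd (hP x hxP y hy hyx) hyP

/-- every admissible set of `K` shifts contains `m` which form a block of consecutive primes along narrow
progressions -/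
theorem kpat (hC : S_CLS) (m : ℕ) (hm : 1 ≤ m) : ∃ K : ℕ, m ≤ K ∧ ∀ q a : ℕ, Squarefree q →
    a.Coprime q → ∀ B : Finset ℕ, B.card = K →
    (∀ p : ℕ, p.Prime → p ≤ K → ¬ p ∣ q → ∃ r : ℤ, ∀ b ∈ B, ¬ ((p : ℤ) ∣ r + b)) →
    ∃ P ⊆ B, P.card = m ∧ NBlk q a P := by
  classical
  obtain ⟨K, hK, h⟩ := hC (4 * m) (by omega)
  refine ⟨4 * m * K, by nlinarith, fun q a hq ha B hB hadm => ?_⟩
  have hq0 : 0 < q := Nat.pos_of_ne_zero (by rintro rfl; exact not_squarefree_zero hq)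
  have hcard : Fintype.card (Fin (4 * m) × Fin K) = Fintype.card B := by
    rw [Fintype.card_prod, Fintype.card_fin, Fintype.card_fin, Fintype.card_coe, hB]
  let e : Fin (4 * m) × Fin K ≃ B := Fintype.equivOfCardEq hcard
  let H : Fin (4 * m) → Fin K → ℕ := fun g i => ((e (g, i) : B) : ℕ)
  have hHB : ∀ x : Fin (4 * m) × Fin K, H x.1 x.2 ∈ B := fun x => (e (x.1, x.2)).2
  have hinj : Function.Injective (fun x : Fin (4 * m) × Fin K => H x.1 x.2) := by
    intro x y hxy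
    have h1 : e (x.1, x.2) = e (y.1, y.2) := Subtype.ext hxy
    exact e.injective h1
  have hA : AdmN q H := by
    refine ⟨hinj, fun p hp hpq => ?_⟩
    by_cases hle : p ≤ 4 * m * K
    · obtain ⟨r, hr⟩ := hadm p hp hle hpq
      exact ⟨r, fun g i => hr _ (hHB (g, i))⟩
    · have : Fact p.Prime := ⟨hp⟩
      have : ∃ y : ZMod p, y ∉ B.image (fun b : ℕ => -(b : ZMod p)) := by
        by_contra hcon
        push Not at hcon
        have h1 : (univ : Finset (ZMod p)) ⊆ B.image (fun b : ℕ => -(b : ZMod p)) := fun y _ => hcon y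
        have h2 := (card_le_card h1).trans card_image_le
        rw [card_univ, ZMod.card, hB] at h2
        omega
      obtain ⟨y, hy⟩ := this
      refine ⟨y.val, fun g i hd => hy ?_⟩
      rw [mem_image]
      refine ⟨H g i, hHB (g, i), ?_⟩
      rw [← ZMod.intCast_zmod_eq_zero_iff_dvd] at hd
      push_cast at hd
      rw [ZMod.natCast_zmod_val] at hd
      linear_combination -hd
  obtain ⟨P₀, hP₀, hnap⟩ := h q a hq ha H hA
  have hP₀c : m ≤ P₀.card := by
    have := card_image_le (s := P₀) (f := Prod.fst)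
    omega
  have hSc : (P₀.image (fun x => H x.1 x.2)).card = P₀.card := card_image_of_injective _ hinj
  obtain ⟨P, hPS, hPc, hP⟩ := init_seg (P₀.image (fun x => H x.1 x.2)) m (by omega)
  refine ⟨P, fun x hx => ?_, hPc, fun l => ?_⟩
  · obtain ⟨z, -, rfl⟩ := mem_image.1 (hPS hx)
    exact hHB z
  obtain ⟨R, hR⟩ : ∃ R : ℕ, ∀ v ∈ P, q * v ≤ R := ⟨P.sup (fun v => q * v), fun v hv =>
    le_sup (f := fun v => q * v) hv⟩
  obtain ⟨C, hC'⟩ := hnap R l
  refine ⟨C, fun x₀ => ?_⟩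
  obtain ⟨n, d, h1, h2, h3, h4⟩ := hC' x₀
  refine ⟨n, d, h1, h2, h3, fun j hj => ⟨(h4 j hj).2, ?_⟩⟩
  rintro t - ⟨v, hv, htv⟩
  have h5 := (h4 j hj).1 (t : ℤ) (by
    rw [abs_of_nonneg (by positivity)]
    exact_mod_cast htv.trans (hR v hv))
  rw [← Nat.cast_add, Int.toNat_natCast] at h5
  rw [h5]
  constructor
  · rintro ⟨x, hx, hxt⟩
    have hxt' : t = q * H x.1 x.2 := by exact_mod_cast hxt
    refine ⟨H x.1 x.2, hP v hv _ (mem_image_of_mem _ hx) ?_, hxt'⟩
    rw [hxt'] at htv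
    exact Nat.le_of_mul_le_mul_left htv hq0
  · rintro ⟨y, hy, rfl⟩
    obtain ⟨x, hx, hxy⟩ := mem_image.1 (hPS hy)
    exact ⟨x, hx, by rw [← hxy]⟩

/-- every finite set contains a large part which misses a class modulo every small prime -/
theorem sift (B : Finset ℕ) (M : ℕ) : ∃ B₁ ⊆ B, B.card ≤ 2 ^ M * B₁.card ∧
    ∀ p : ℕ, p.Prime → p ≤ M → ∃ r : ℤ, ∀ b ∈ B₁, ¬ ((p : ℤ) ∣ r + b) := by
  classical
  induction M with
  | zero => exact ⟨B, Subset.rfl, by simp, fun p hp h => absurd (Nat.le_zero.1 h) hp.ne_zero⟩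
  | succ M ih =>
    obtain ⟨B₁, hB₁, hc, h⟩ := ih
    by_cases hp : (M + 1).Prime
    · -- remove one of the classes `0`, `1`
      have key : ∃ r : ℤ, B₁.card ≤ 2 * (B₁.filter (fun b : ℕ => ¬ (((M + 1 : ℕ) : ℤ) ∣ r + (b : ℤ)))).card := by
        by_contra hcon
        push Not at hcon
        have h0 := hcon 0
        have h1 := hcon (-1)
        have e0 := card_filter_add_card_filter_not (s := B₁) (fun b : ℕ => ((M + 1 : ℕ) : ℤ) ∣ (0 : ℤ) + (b : ℤ))
        have e1 := card_filter_add_card_filter_not (s := B₁) (fun b : ℕ => ((M + 1 : ℕ) : ℤ) ∣ (-1 : ℤ) + (b : ℤ))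
        have hdisj : Disjoint (B₁.filter (fun b : ℕ => ((M + 1 : ℕ) : ℤ) ∣ 0 + (b : ℤ)))
            (B₁.filter (fun b : ℕ => ((M + 1 : ℕ) : ℤ) ∣ -1 + (b : ℤ))) := by
          rw [disjoint_filter]
          intro b _ hb0 hb1
          have h2 : ((M + 1 : ℕ) : ℤ) ∣ 1 := by
            have := dvd_sub hb0 hb1
            have e : (0 + (b : ℤ)) - (-1 + (b : ℤ)) = 1 := by ring
            rwa [e] at this
          have h3 := Int.eq_one_of_dvd_one (by positivity) h2
          exact hp.one_lt.ne' (by exact_mod_cast h3)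
        have h2 := card_union_of_disjoint hdisj
        have h3 : (B₁.filter (fun b : ℕ => ((M + 1 : ℕ) : ℤ) ∣ 0 + (b : ℤ)) ∪
            B₁.filter (fun b : ℕ => ((M + 1 : ℕ) : ℤ) ∣ -1 + (b : ℤ))).card ≤ B₁.card :=
          card_le_card (union_subset (filter_subset _ _) (filter_subset _ _))
        omega
      obtain ⟨r, hr⟩ := key
      refine ⟨B₁.filter (fun b : ℕ => ¬ (((M + 1 : ℕ) : ℤ) ∣ r + (b : ℤ))),
        (filter_subset _ _).trans hB₁, ?_, ?_⟩
      · calc B.card ≤ 2 ^ M * B₁.card := hc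
          _ ≤ 2 ^ M * (2 * (B₁.filter (fun b : ℕ => ¬ (((M + 1 : ℕ) : ℤ) ∣ r + (b : ℤ)))).card) :=
              Nat.mul_le_mul_left _ hr
          _ = _ := by ring
      · intro p hp' hle
        rcases Nat.lt_or_ge M p with hlt | hge
        · have : p = M + 1 := by omega
          subst this
          exact ⟨r, fun b hb => (mem_filter.1 hb).2⟩
        · obtain ⟨r', hr'⟩ := h p hp' hge
          exact ⟨r', fun b hb => hr' b (mem_filter.1 hb).1⟩
    · refine ⟨B₁, hB₁, ?_, ?_⟩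
      · calc B.card ≤ 2 ^ M * B₁.card := hc
          _ ≤ 2 ^ (M + 1) * B₁.card := Nat.mul_le_mul_right _ (Nat.pow_le_pow_right (by norm_num) (by omega))
      · intro p hp' hle
        have : p ≠ M + 1 := by rintro rfl; exact hp hp'
        exact h p hp' (by omega)

open Classical in
/-- a positive proportion of the `m`-subsets of every finite set are patterns of blocks of consecutive
primes along narrow progressions -/
theorem tb (hC : S_CLS) (m : ℕ) (hm : 1 ≤ m) : ∃ (K : ℕ) (c : ℝ), m ≤ K ∧ 0 < c ∧ ∀ q a : ℕ,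
    Squarefree q → a.Coprime q → ∀ B : Finset ℕ,
    (K ≤ B.card → c * (B.card : ℝ) ^ m ≤ (((B.powersetCard m).filter (fun P => NBlk q a P)).card : ℝ)) ∧
    (B.card = K → (∀ p : ℕ, p.Prime → p ≤ K → ¬ p ∣ q → ∃ r : ℤ, ∀ b ∈ B, ¬ ((p : ℤ) ∣ r + b)) →
      ∃ P ⊆ B, P.card = m ∧ NBlk q a P) := by
  obtain ⟨K, hmK, hk⟩ := kpat hC m hm
  obtain ⟨K₁, hK₁⟩ : ∃ K₁, K₁ = 2 ^ K * (2 * K) := ⟨_, rfl⟩
  have hpow : 1 ≤ 2 ^ K := Nat.one_le_two_pow
  have hKK : K ≤ K₁ := by
    rw [hK₁]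
    nlinarith
  have hch : (0 : ℝ) < K.choose m := by exact_mod_cast Nat.choose_pos hmK
  obtain ⟨D, hD⟩ : ∃ D : ℝ, D = (2 ^ K) ^ m * (2 ^ m * m.factorial * K.choose m) := ⟨_, rfl⟩
  have hD0 : 0 < D := by rw [hD]; positivity
  refine ⟨K₁, 1 / D, hmK.trans hKK, by positivity, fun q a hq ha B => ⟨fun hB => ?_, fun hB hadm => ?_⟩⟩
  · obtain ⟨V, hVB, hVc, hV⟩ := sift B K
    have hV2 : 2 * K ≤ V.card := by
      have h1 : 2 ^ K * (2 * K) ≤ 2 ^ K * V.card := by
        rw [← hK₁]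
        exact hB.trans hVc
      exact Nat.le_of_mul_le_mul_left h1 (by omega)
    obtain ⟨R, hR⟩ : ∃ R : Finset (Finset ℕ), R = (V.powersetCard m).filter (fun P => NBlk q a P) := ⟨_, rfl⟩
    have hturan := turan_avg V K m hmK (by omega) R (by rw [hR]; exact filter_subset _ _) (by
      intro B' hB'
      obtain ⟨h1, h2⟩ := mem_powersetCard.1 hB'
      obtain ⟨P, hP1, hP2, hP3⟩ := hk q a hq ha B' h2 (fun p hp hle _ => by
        obtain ⟨r, hr⟩ := hV p hp hle
        exact ⟨r, fun b hb => hr b (h1 hb)⟩)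
      refine ⟨P, ?_, hP1⟩
      rw [hR, mem_filter, mem_powersetCard]
      exact ⟨⟨hP1.trans h1, hP2⟩, hP3⟩)
    have h1 := choose_lower V.card m (by omega)
    have h2 : ((V.card.choose m : ℕ) : ℝ) ≤ (R.card : ℝ) * (K.choose m : ℝ) := by exact_mod_cast hturan
    have h3 : (B.card : ℝ) ≤ 2 ^ K * (V.card : ℝ) := by exact_mod_cast hVc
    have h4 : (R.card : ℝ) ≤ (((B.powersetCard m).filter (fun P => NBlk q a P)).card : ℝ) := by
      rw [hR]
      exact_mod_cast card_le_card (filter_subset_filter _ (powersetCard_mono hVB))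
    have h5 : (B.card : ℝ) ^ m ≤ D * R.card := by
      calc (B.card : ℝ) ^ m ≤ (2 ^ K * (V.card : ℝ)) ^ m := by gcongr
        _ = (2 ^ K) ^ m * (V.card : ℝ) ^ m := by rw [mul_pow]
        _ ≤ (2 ^ K) ^ m * (2 ^ m * m.factorial * ((V.card.choose m : ℕ) : ℝ)) := by gcongr
        _ ≤ (2 ^ K) ^ m * (2 ^ m * m.factorial * ((R.card : ℝ) * (K.choose m : ℝ))) := by gcongr
        _ = D * R.card := by rw [hD]; ring
    rw [one_div, inv_mul_le_iff₀ hD0]
    exact h5.trans (by gcongr)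
  · obtain ⟨B', hB', hBc⟩ := exists_subset_card_eq (hKK.trans hB.ge)
    obtain ⟨P, hP1, hP2, hP3⟩ := hk q a hq ha B' hBc (fun p hp hle hpq => by
      obtain ⟨r, hr⟩ := hadm p hp (hle.trans hKK) hpq
      exact ⟨r, fun b hb => hr b (hB' hb)⟩)
    exact ⟨P, hP1.trans hB', hP2, hP3⟩

end Pool.Agent.Y520.NP
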